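import Pool.Agent.H86.Det.Basic

/-!
# Inverse limits of coverings
-/

namespace Pool.Agent.H86.Det

namespace GTree

theorem exists_thread (j₀ : ℕ) : ∀ (T : ℕ → GTree) (ν : ℕ → ℕ)
    (c : ∀ j, Cov (ν j) (T (j + 1)) (T j)) (q : (T j₀).Pos),
    (∀ j, j₀ ≤ j → (T j₀).len q ≤ ν j) →
    ∃ z : ∀ j, (T j).Pos, (∀ j, (c j).f (z (j + 1)) = z j) ∧ z j₀ = q := by
  induction j₀ with
  | zero =>
    intro T ν c q hq
    have step : ∀ j, ∀ p : {p : (T j).Pos // (T j).len p = (T 0).len q},
        ∃ p' : {p : (T (j + 1)).Pos // (T (j + 1)).len p = (T 0).len q},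
          (c j).f p'.1 = p.1 := by
      intro j p
      obtain ⟨p', hp'⟩ := (c j).surj p.1 (by rw [p.2]; exact hq j (Nat.zero_le _))
      exact ⟨⟨p', by rw [← (c j).flen, hp', p.2]⟩, hp'⟩
    let F : ∀ j, {p : (T j).Pos // (T j).len p = (T 0).len q} := fun j =>
      Nat.rec (motive := fun j => {p : (T j).Pos // (T j).len p = (T 0).len q})
        ⟨q, rfl⟩ (fun j p => (step j p).choose) j
    exact ⟨fun j => (F j).1, fun j => (step j (F j)).choose_spec, rfl⟩
  | succ j₀ ih =>
    intro T ν c q hq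
    obtain ⟨z', h1, h2⟩ := ih (fun j => T (j + 1)) (fun j => ν (j + 1)) (fun j => c (j + 1)) q
      (fun j hj => hq (j + 1) (by omega))
    refine ⟨fun j => match j with
      | 0 => (c 0).f (z' 0)
      | j + 1 => z' j, fun j => ?_, h2⟩
    cases j with
    | zero => rfl
    | succ j => exact h1 j

theorem thread_unique (T : ℕ → GTree) (ν : ℕ → ℕ)
    (c : ∀ j, Cov (ν j) (T (j + 1)) (T j)) (z z' : ∀ j, (T j).Pos)
    (hz : ∀ j, (c j).f (z (j + 1)) = z j) (hz' : ∀ j, (c j).f (z' (j + 1)) = z' j)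
    (j₀ : ℕ) (hl : ∀ j, j₀ ≤ j → (T j₀).len (z j₀) ≤ ν j) (h : z j₀ = z' j₀) : z = z' := by
  have hlen : ∀ j, (T j).len (z j) = (T 0).len (z 0) := by
    intro j
    induction j with
    | zero => rfl
    | succ j ih => rw [← ih, ← hz j, (c j).flen]
  have up : ∀ j, j₀ ≤ j → z j = z' j := by
    intro j hj
    induction j, hj using Nat.le_induction with
    | base => exact h
    | succ j hj ih =>
      apply (c j).inj _ _ _ (by rw [hz, hz', ih])
      have := hl j hj
      rw [hlen] at this ⊢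
      exact this
  have down : ∀ d j, j + d = j₀ → z j = z' j := by
    intro d
    induction d with
    | zero => intro j hj; exact up j (by omega)
    | succ d ih =>
      intro j hj
      rw [← hz, ← hz', ih (j + 1) (by omega)]
  funext j
  rcases le_total j₀ j with h1 | h1
  · exact up j h1
  · exact down (j₀ - j) j (by omega)

section
variable (T : ℕ → GTree) (ν : ℕ → ℕ) (c : ∀ j, Cov (ν j) (T (j + 1)) (T j))

abbrev LPos := {z : ∀ j, (T j).Pos // ∀ j, (c j).f (z (j + 1)) = z j}

variable {T ν c}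

theorem LPos.len_eq (z : LPos T ν c) (j : ℕ) : (T j).len (z.1 j) = (T 0).len (z.1 0) := by
  induction j with
  | zero => rfl
  | succ j ih => rw [← ih, ← z.2 j, (c j).flen]

variable (T ν c)

def LPos.r (z : LPos T ν c) : LPos T ν c :=
  ⟨fun j => (T j).r (z.1 j), fun j => by rw [← (c j).fr, z.2]⟩

/-- the inverse limit -/
def lim (hν : ∀ j, j ≤ ν j) : GTree where
  Pos := LPos T ν c
  r := LPos.r T ν c
  len := fun z => (T 0).len (z.1 0)
  len_r := fun z => (T 0).len_r _
  ext := fun z => by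
    obtain ⟨q, hq1, hq2'⟩ := (T ((T 0).len (z.1 0) + 1)).ext (z.1 _)
    have hq2 := hq2'.trans (congrArg (· + 1) (z.len_eq _))
    obtain ⟨z', h1, h2⟩ := exists_thread _ T ν c q (fun j hj => by
      rw [hq2]; exact hj.trans (hν j))
    refine ⟨⟨z', h1⟩, ?_, ?_⟩
    · apply Subtype.ext
      refine thread_unique T ν c _ _ (LPos.r T ν c ⟨z', h1⟩).2 z.2 ((T 0).len (z.1 0) + 1) ?_ ?_
      · intro j hj
        show (T _).len ((T _).r (z' _)) ≤ _
        rw [(T _).len_r, h2, hq2]
        have := hν j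
        omega
      · show (T _).r (z' _) = _
        rw [h2, hq1]
    · have := LPos.len_eq (c := c) ⟨z', h1⟩ ((T 0).len (z.1 0) + 1)
      exact this.symm.trans ((congrArg _ h2).trans hq2)

/-- projections from the inverse limit -/
def proj (hν : ∀ j, j ≤ ν j) (i : ℕ) : Hom (lim T ν c hν) (T i) where
  f := fun z => z.1 i
  flen := fun z => z.len_eq i
  fr := fun _ => rfl

end

section
variable {T : ℕ → GTree} {ν : ℕ → ℕ} {c : ∀ j, Cov (ν j) (T (j + 1)) (T j)}
variable {hν' : ∀ j, j ≤ ν j} (N : ℕ)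

/-- transport of a strategy of the limit to `T j` (relevant on short positions) -/
noncomputable def tr (σ : Strat (lim T ν c hν')) (j : ℕ) : Strat (T j) :=
  open Classical in
  { s := fun q => if h : ∃ z : LPos T ν c, z.1 j = q ∧ (T j).len q < N + j
      then (σ.s h.choose).1 j else (dflt (T j)).s q
    hs := fun q => by
      by_cases h : ∃ z : LPos T ν c, z.1 j = q ∧ (T j).len q < N + j
      · simp only [h, dite_true]
        have h1 := (proj T ν c hν' j).succ (σ.hs h.choose)
        have h2 : (proj T ν c hν' j).f h.choose = q := h.choose_spec.1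
        rw [h2] at h1
        exact h1
      · simp only [h, dite_false]
        exact (dflt (T j)).hs q }

theorem tr_spec (hν : ∀ j, N + j ≤ ν j) (σ : Strat (lim T ν c hν')) (j : ℕ) (z : LPos T ν c)
    (hz : (T 0).len (z.1 0) < N + j) : (tr N σ j).s (z.1 j) = (σ.s z).1 j := by
  classical
  have h : ∃ z' : LPos T ν c, z'.1 j = z.1 j ∧ (T j).len (z.1 j) < N + j :=
    ⟨z, rfl, by rw [z.len_eq]; exact hz⟩
  have hh : h.choose = z := by
    apply Subtype.ext
    refine thread_unique T ν c _ _ h.choose.2 z.2 j ?_ h.choose_spec.1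
    intro j' hj'
    rw [h.choose_spec.1]
    have := hν j'
    have := h.choose_spec.2
    omega
  show (if h : ∃ z' : LPos T ν c, z'.1 j = z.1 j ∧ (T j).len (z.1 j) < N + j
      then (σ.s h.choose).1 j else (dflt (T j)).s (z.1 j)) = _
  rw [dif_pos h, hh]

/-- approximations -/
noncomputable def S (b : Bool) (σ : Strat (lim T ν c hν')) : ℕ → ∀ i, Strat (T i)
  | 0, i => tr N σ i
  | d + 1, i => (c i).φ b (S b σ d (i + 1))

theorem S_step (hν : ∀ j, N + j ≤ ν j) (b : Bool) (σ : Strat (lim T ν c hν')) (d : ℕ) :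
    ∀ i p, (T i).len p < N + i + d → (S N b σ (d + 1) i).s p = (S N b σ d i).s p := by
  induction d with
  | zero =>
    intro i p hp
    obtain ⟨z, h1, h2⟩ := exists_thread i T ν c p (fun j hj => by have := hν j; omega)
    subst h2
    have hl : (T 0).len (z 0) < N + i := by
      have := LPos.len_eq (c := c) ⟨z, h1⟩ i
      simp only at this
      omega
    have hl' : (T (i + 1)).len (z (i + 1)) = (T 0).len (z 0) :=
      LPos.len_eq (c := c) ⟨z, h1⟩ (i + 1)
    show ((c i).φ b (tr N σ (i + 1))).s (z i) = (tr N σ i).s (z i)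
    conv_lhs => rw [← h1 i]
    rw [(c i).agree b _ _ (by rw [hl']; have := hν i; omega),
      tr_spec N hν σ (i + 1) ⟨z, h1⟩ (by simp only; omega), tr_spec N hν σ i ⟨z, h1⟩ (by simpa using hl)]
    exact (σ.s ⟨z, h1⟩).2 i
  | succ d ih =>
    intro i p hp
    exact (c i).loc b (N + i + (d + 1)) _ _ (fun q hq => ih (i + 1) q (by omega)) p hp

theorem S_stable (hν : ∀ j, N + j ≤ ν j) (b : Bool) (σ : Strat (lim T ν c hν')) {d e : ℕ}
    (h : d ≤ e) {i : ℕ} {p : (T i).Pos} (hp : (T i).len p < N + i + d) :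
    (S N b σ e i).s p = (S N b σ d i).s p := by
  induction e, h using Nat.le_induction with
  | base => rfl
  | succ e he ih => rw [S_step N hν b σ e i p (by omega), ih]

noncomputable def limS (b : Bool) (σ : Strat (lim T ν c hν')) (i : ℕ) : Strat (T i) :=
  ⟨fun p => (S N b σ ((T i).len p + 1) i).s p, fun p => (S N b σ _ i).hs p⟩

theorem S_lim (hν : ∀ j, N + j ≤ ν j) (b : Bool) (σ : Strat (lim T ν c hν')) {d : ℕ}
    {i : ℕ} {p : (T i).Pos} (hp : (T i).len p < N + i + d) :
    (S N b σ d i).s p = (limS N b σ i).s p := by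
  show _ = (S N b σ ((T i).len p + 1) i).s p
  rcases le_total d ((T i).len p + 1) with h | h
  · exact (S_stable N hν b σ h hp).symm
  · exact S_stable N hν b σ h (by omega)

theorem φ_lim (hν : ∀ j, N + j ≤ ν j) (b : Bool) (σ : Strat (lim T ν c hν')) (i : ℕ) :
    (c i).φ b (limS N b σ (i + 1)) = limS N b σ i := by
  apply Strat.ext
  funext p
  rw [(c i).loc b ((T i).len p + 1) _ (S N b σ ((T i).len p + 1) (i + 1))
    (fun q hq => (S_lim N hν b σ (by omega)).symm) p (by omega)]
  exact S_lim N hν b σ (d := (T i).len p + 2) (by omega)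

theorem tr_loc (σ σ' : Strat (lim T ν c hν')) (n : ℕ)
    (h : ∀ q, (lim T ν c hν').len q < n → σ.s q = σ'.s q) (j : ℕ) (p : (T j).Pos)
    (hp : (T j).len p < n) : (tr N σ j).s p = (tr N σ' j).s p := by
  classical
  show (if h : ∃ z' : LPos T ν c, z'.1 j = p ∧ (T j).len p < N + j
      then (σ.s h.choose).1 j else (dflt (T j)).s p) =
    (if h : ∃ z' : LPos T ν c, z'.1 j = p ∧ (T j).len p < N + j
      then (σ'.s h.choose).1 j else (dflt (T j)).s p)
  by_cases hh : ∃ z' : LPos T ν c, z'.1 j = p ∧ (T j).len p < N + j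
  · rw [dif_pos hh, dif_pos hh]
    refine congrArg (fun z : LPos T ν c => z.1 j) (h hh.choose ?_)
    show (T 0).len _ < n
    rw [← LPos.len_eq _ j, hh.choose_spec.1]
    exact hp
  · rw [dif_neg hh, dif_neg hh]

theorem S_loc (b : Bool) (σ σ' : Strat (lim T ν c hν')) (n : ℕ)
    (h : ∀ q, (lim T ν c hν').len q < n → σ.s q = σ'.s q) (d : ℕ) :
    ∀ i p, (T i).len p < n → (S N b σ d i).s p = (S N b σ' d i).s p := by
  induction d with
  | zero => intro i p hp; exact tr_loc N σ σ' n h i p hp
  | succ d ih => intro i p hp; exact (c i).loc b n _ _ (fun q hq => ih (i + 1) q hq) p hp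

/-- the limit covering -/
noncomputable def limCov (hν : ∀ j, N + j ≤ ν j) : Cov N (lim T ν c hν') (T 0) where
  toHom := proj T ν c hν' 0
  inj := fun z z' hz h => by
    apply Subtype.ext
    exact thread_unique T ν c _ _ z.2 z'.2 0
      (fun j _ => (show (T 0).len (z.1 0) ≤ N from hz).trans (by have := hν j; omega)) h
  surj := fun p hp => by
    obtain ⟨z, h1, h2⟩ := exists_thread 0 T ν c p
      (fun j _ => hp.trans (by have := hν j; omega))
    exact ⟨⟨z, h1⟩, h2⟩
  φ := fun b σ => limS N b σ 0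
  loc := fun b n σ σ' h p hp => S_loc N b σ σ' n h _ 0 p hp
  agree := fun b σ z hz => by
    have hz' : (T 0).len (z.1 0) < N := hz
    show (limS N b σ 0).s (z.1 0) = (σ.s z).1 0
    rw [← S_lim N hν b σ (d := 0) (by omega)]
    exact tr_spec N hν σ 0 z (by omega)
  lift := fun b σ x hx => by
    have step : ∀ i, ∀ x : {x : Body (T i) // Cons b (limS N b σ i) x},
        ∃ y : {y : Body (T (i + 1)) // Cons b (limS N b σ (i + 1)) y},
          (c i).toHom.body y.1 = x.1 := by
      intro i x
      obtain ⟨y, hy, hyx⟩ := (c i).lift b (limS N b σ (i + 1)) x.1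
        (by rw [φ_lim N hν]; exact x.2)
      exact ⟨⟨y, hy⟩, hyx⟩
    let X : ∀ i, {x : Body (T i) // Cons b (limS N b σ i) x} := fun i =>
      Nat.rec (motive := fun i => {x : Body (T i) // Cons b (limS N b σ i) x})
        ⟨x, hx⟩ (fun i x => (step i x).choose) i
    have hX : ∀ i, (c i).toHom.body (X (i + 1)).1 = (X i).1 :=
      fun i => (step i (X i)).choose_spec
    let y : Body (lim T ν c hν') :=
      { x := fun n => ⟨fun i => (X i).1.x n, fun i => by
          have := congrArg (fun b => b.x n) (hX i)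
          exact this⟩
        hlen := fun n => (X 0).1.hlen n
        hr := fun n => Subtype.ext (funext fun i => (X i).1.hr n) }
    refine ⟨y, ?_, rfl⟩
    intro n hn
    apply Subtype.ext
    refine thread_unique T ν c _ _ (y.x (n + 1)).2 (σ.s (y.x n)).2 (n + 1) ?_ ?_
    · intro j hj
      have : (T (n + 1)).len ((y.x (n + 1)).1 (n + 1)) = n + 1 := (X (n + 1)).1.hlen (n + 1)
      rw [this]
      exact hj.trans (hν' j)
    · show (X (n + 1)).1.x (n + 1) = _
      rw [(X (n + 1)).2 n hn, ← S_lim N hν b σ (d := 0) (by rw [(X (n + 1)).1.hlen]; omega)]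
      refine tr_spec N hν σ (n + 1) (y.x n) ?_
      have : (T 0).len ((y.x n).1 0) = n := (X 0).1.hlen n
      omega

end

end GTree

end Pool.Agent.H86.Det
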