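import Pool.Agent.H86.Det.Closed3
import Pool.Agent.H86.Det.Lim

/-!
# Borel determinacy (Martin)
-/

namespace Pool.Agent.H86.Det

namespace GTree

theorem unravel_closed (T : GTree) (N : ℕ) (hN : N % 2 = 0) (X : Set (Body T)) (hX : IsO Xᶜ) :
    ∃ (Q : GTree) (c : Cov N Q T), IsCl (c.toHom.body ⁻¹' X) := by
  let D : Set T.Pos := {p | ∀ x : Body T, x.x (T.len p) = p → x ∉ X}
  have hXD : X = {x : Body T | ∀ n, x.x n ∉ D} := by
    ext x
    constructor
    · intro hx n hn
      exact hn x (by rw [x.hlen]) hx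
    · intro hx
      by_contra hcon
      obtain ⟨n, hn⟩ := hX x hcon
      exact hx n (fun y hy => hn y (by rwa [x.hlen] at hy))
  refine ⟨aux T N D hN, auxCov T N D hN, ?_⟩
  rw [hXD]
  refine aux_clopen hN ?_
  intro p q hs hp x hx
  refine hp x ?_
  have h1 := x.hr (T.len p)
  rw [← hs.2, hx, hs.1] at h1
  exact h1.symm

/-- universally unravellable sets -/
def Unr (T : GTree) (X : Set (Body T)) : Prop :=
  ∀ (Q : GTree) (g : Hom Q T) (N : ℕ), N % 2 = 0 →
    ∃ (Q' : GTree) (c : Cov N Q' Q), IsCl ((g.comp c.toHom).body ⁻¹' X)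

theorem Unr.compl {T : GTree} {X : Set (Body T)} (h : Unr T X) : Unr T Xᶜ := by
  intro Q g N hN
  obtain ⟨Q', c, hc⟩ := h Q g N hN
  exact ⟨Q', c, hc.compl⟩

theorem Unr.of_open {T : GTree} {X : Set (Body T)} (h : IsO X) : Unr T X := by
  intro Q g N hN
  obtain ⟨Q', c, hc⟩ := unravel_closed Q N hN (g.body ⁻¹' X)ᶜ (by
    rw [compl_compl]; exact h.preimage g)
  refine ⟨Q', c, ?_⟩
  have := hc.compl
  rw [← Set.preimage_compl, compl_compl] at this
  exact this

theorem Unr.iUnion {T : GTree} {X : ℕ → Set (Body T)} (h : ∀ i, Unr T (X i)) :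
    Unr T (⋃ i, X i) := by
  intro Q g N hN
  have step : ∀ (i : ℕ) (P : Σ Q : GTree, Hom Q T), ∃ (P' : Σ Q : GTree, Hom Q T)
      (c : Cov (N + 2 * i) P'.1 P.1), P'.2 = P.2.comp c.toHom ∧ IsCl (P'.2.body ⁻¹' X i) := by
    intro i P
    obtain ⟨Q', c, hc⟩ := h i P.1 P.2 (N + 2 * i) (by omega)
    exact ⟨⟨Q', P.2.comp c.toHom⟩, c, rfl, hc⟩
  let P : ℕ → Σ Q : GTree, Hom Q T := fun n =>
    Nat.rec (motive := fun _ => Σ Q : GTree, Hom Q T) ⟨Q, g⟩ (fun i P => (step i P).choose) n
  have hP : ∀ i, ∃ c : Cov (N + 2 * i) (P (i + 1)).1 (P i).1,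
      (P (i + 1)).2 = (P i).2.comp c.toHom ∧ IsCl ((P (i + 1)).2.body ⁻¹' X i) :=
    fun i => (step i (P i)).choose_spec
  choose c hc1 hc2 using hP
  let T' : ℕ → GTree := fun i => (P i).1
  let ν : ℕ → ℕ := fun i => N + 2 * i
  have hν' : ∀ j, j ≤ ν j := fun j => by show j ≤ N + 2 * j; omega
  have hν : ∀ j, N + j ≤ ν j := fun j => by show N + j ≤ N + 2 * j; omega
  let L : GTree := lim T' ν c hν'
  let cL : Cov N L Q := limCov (T := T') (ν := ν) (c := c) (hν' := hν') N hν
  have hcomm : ∀ (i : ℕ) (z : L.Pos), (P i).2.f (z.1 i) = g.f (z.1 0) := by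
    intro i z
    induction i with
    | zero => rfl
    | succ i ih =>
      rw [hc1 i, ← ih]
      show (P i).2.f ((c i).f (z.1 (i + 1))) = _
      rw [z.2 i]
  have hpre : ∀ i, IsO ((g.comp cL.toHom).body ⁻¹' X i) := by
    intro i
    have h1 : (g.comp cL.toHom).body ⁻¹' X i =
        (proj T' ν c hν' (i + 1)).body ⁻¹' ((P (i + 1)).2.body ⁻¹' X i) := by
      ext y
      show (g.comp cL.toHom).body y ∈ X i ↔
        (P (i + 1)).2.body ((proj T' ν c hν' (i + 1)).body y) ∈ X i
      have : (g.comp cL.toHom).body y =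
          (P (i + 1)).2.body ((proj T' ν c hν' (i + 1)).body y) := by
        apply Body.ext
        funext n
        exact (hcomm (i + 1) (y.x n)).symm
      rw [this]
    rw [h1]
    exact (hc2 i).1.preimage _
  have hO : IsO ((g.comp cL.toHom).body ⁻¹' ⋃ i, X i) := by
    rw [Set.preimage_iUnion]
    exact IsO.iUnion hpre
  obtain ⟨Q', d, hd⟩ := unravel_closed L N hN ((g.comp cL.toHom).body ⁻¹' ⋃ i, X i)ᶜ (by
    rw [compl_compl]; exact hO)
  refine ⟨Q', cL.comp d, ?_⟩
  have := hd.compl
  rw [← Set.preimage_compl, compl_compl] at this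
  exact this

/-! ## The standard tree -/

/-- finite sequences, latest move first -/
def std (A : Type) [Nonempty A] : GTree where
  Pos := List A
  r := List.tail
  len := List.length
  len_r := fun _ => List.length_tail
  ext := fun p => ⟨Classical.arbitrary A :: p, rfl, rfl⟩

end GTree

open GTree MeasureTheory

/-- first `n` entries of a play -/
def pre {A : Type*} (x : ℕ → A) (n : ℕ) : List A := List.ofFn (fun i : Fin n => x i)

/-- Borel sigma-algebra of the product of discrete topologies on `A` -/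
def dBorel (A : Type*) : MeasurableSpace (ℕ → A) :=
  @borel (ℕ → A) (@Pi.topologicalSpace ℕ (fun _ => A) (fun _ => ⊥))

theorem pre_succ {A : Type*} (x : ℕ → A) (n : ℕ) : pre x (n + 1) = pre x n ++ [x n] := by
  unfold pre
  rw [List.ofFn_succ_last]
  rfl

section
variable {A : Type} [Nonempty A]

/-- the play of the standard tree attached to a sequence -/
def toB (x : ℕ → A) : Body (std A) where
  x := fun n => (pre x n).reverse
  hlen := fun n => by
    show (pre x n).reverse.length = n
    rw [List.length_reverse, pre, List.length_ofFn]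
  hr := fun n => by
    show (pre x (n + 1)).reverse.tail = (pre x n).reverse
    rw [pre_succ, List.reverse_append]
    rfl

noncomputable def hd (l : List A) : A := l.headD (Classical.arbitrary A)

noncomputable def ofB (y : Body (std A)) : ℕ → A := fun n => hd (y.x (n + 1))

theorem ofB_toB (x : ℕ → A) : ofB (toB x) = x := by
  funext n
  show hd (pre x (n + 1)).reverse = x n
  rw [pre_succ, List.reverse_append]
  rfl

theorem ofB_agree {y y' : Body (std A)} {n : ℕ} (h : y'.x n = y.x n) (i : ℕ) (hi : i < n) :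
    ofB y' i = ofB y i := by
  have h1 : ∀ m, m ≤ n → y'.x m = y.x m := by
    intro m hm
    rw [← y'.pre hm, ← y.pre hm, h]
  show hd _ = hd _
  rw [h1 (i + 1) hi]

theorem unr_borel (W : Set (ℕ → A)) (hW : MeasurableSet[dBorel A] W) :
    Unr (std A) (ofB ⁻¹' W) := by
  let _ : TopologicalSpace A := ⊥
  have hW' : MeasurableSpace.GenerateMeasurable {s : Set (ℕ → A) | IsOpen s} W := hW
  clear hW
  induction hW' with
  | basic u hu =>
    apply Unr.of_open
    intro y hy
    have hu' : IsOpen u := hu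
    obtain ⟨I, v, h1, h2⟩ := isOpen_pi_iff.1 hu' (ofB y) hy
    refine ⟨I.sup id + 1, fun y' hy' => ?_⟩
    apply h2
    intro i hi
    rw [ofB_agree hy' i (Nat.lt_succ_of_le (Finset.le_sup (f := id) hi))]
    exact (h1 i hi).2
  | empty =>
    apply Unr.of_open
    intro y hy
    exact absurd hy (fun h => h)
  | compl t _ ih => exact ih.compl
  | iUnion f _ ih =>
    rw [Set.preimage_iUnion]
    exact Unr.iUnion ih

theorem cons_of {b : Bool} (σ : Strat (std A)) (x : ℕ → A)
    (hx : ∀ n, n % 2 = par b → x n = hd (σ.s (pre x n).reverse)) : Cons b σ (toB x) := by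
  intro n hn
  show (pre x (n + 1)).reverse = σ.s (pre x n).reverse
  rw [pre_succ, List.reverse_append]
  have h1 := σ.hs (pre x n).reverse
  have h2 : (σ.s (pre x n).reverse : List A).tail = (pre x n).reverse := h1.1
  have h3 : (σ.s (pre x n).reverse : List A).length = (pre x n).reverse.length + 1 := h1.2
  have h4 := hx n hn
  obtain ⟨a, l, hl⟩ : ∃ a l, (σ.s (pre x n).reverse : List A) = a :: l :=
    List.exists_cons_of_length_eq_add_one h3
  have h5 : x n = a := by rw [h4, hl]; rfl
  have h6 : l = (pre x n).reverse := by rw [← h2, hl]; rfl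
  rw [hl, h5, ← h6]
  rfl

/-- **Borel determinacy** (Martin) -/
theorem borel_determinacy {A : Type} [Nonempty A] (W : Set (ℕ → A))
    (hW : MeasurableSet[dBorel A] W) :
    (∃ σ : List A → A, ∀ x : ℕ → A, (∀ n, x (2 * n) = σ (pre x (2 * n))) → x ∈ W) ∨
    (∃ τ : List A → A, ∀ x : ℕ → A, (∀ n, x (2 * n + 1) = τ (pre x (2 * n + 1))) → x ∉ W) := by
  obtain ⟨Q, c, hc⟩ := unr_borel W hW (std A) (Hom.id _) 0 rfl
  have hroot : ∀ p q : Q.Pos, Q.len p = 0 → Q.len q = 0 → p = q := by
    intro p q hp hq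
    apply c.inj p q (by omega)
    have h1 : (std A).len (c.f p) = 0 := by rw [c.flen, hp]
    have h2 : (std A).len (c.f q) = 0 := by rw [c.flen, hq]
    have h1' : (c.f p : List A) = [] := List.length_eq_zero_iff.1 h1
    have h2' : (c.f q : List A) = [] := List.length_eq_zero_iff.1 h2
    exact h1'.trans h2'.symm
  rcases open_det Q hroot _ hc.1 with ⟨σ, hσ⟩ | ⟨τ, hτ⟩
  · left
    refine ⟨fun l => hd ((c.φ false σ).s l.reverse), fun x hx => ?_⟩
    have h1 : Cons false (c.φ false σ) (toB x) := by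
      apply cons_of
      intro n hn
      have hn' : n % 2 = 0 := hn
      obtain ⟨m, rfl⟩ : ∃ m, n = 2 * m := ⟨n / 2, by omega⟩
      exact hx m
    obtain ⟨y, hy, hyx⟩ := c.lift false σ _ h1
    have h2 := hσ y hy
    have h3 : ofB (c.toHom.body y) ∈ W := h2
    rw [hyx, ofB_toB] at h3
    exact h3
  · right
    refine ⟨fun l => hd ((c.φ true τ).s l.reverse), fun x hx => ?_⟩
    have h1 : Cons true (c.φ true τ) (toB x) := by
      apply cons_of
      intro n hn
      have hn' : n % 2 = 1 := hn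
      obtain ⟨m, rfl⟩ : ∃ m, n = 2 * m + 1 := ⟨n / 2, by omega⟩
      exact hx m
    obtain ⟨y, hy, hyx⟩ := c.lift true τ _ h1
    have h2 := hτ y hy
    intro h3
    apply h2
    show ofB (c.toHom.body y) ∈ W
    rw [hyx, ofB_toB]
    exact h3

end

end Pool.Agent.H86.Det
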