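import Mathlib

/-!
# Game trees, strategies, coverings (Martin's purely inductive proof of Borel determinacy)
-/

namespace Pool.Agent.H86.Det

/-- A game tree: positions with a length and a predecessor map; every position can be extended. -/
structure GTree where
  Pos : Type
  r : Pos → Pos
  len : Pos → ℕ
  len_r : ∀ p, len (r p) = len p - 1
  ext : ∀ p, ∃ q, r q = p ∧ len q = len p + 1

namespace GTree
variable (T : GTree)

/-- `q` is an immediate successor of `p` -/
def Succ (p q : T.Pos) : Prop := T.r q = p ∧ T.len q = T.len p + 1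

/-- the initial segment of length `m` of a position -/
def pre (p : T.Pos) (m : ℕ) : T.Pos := T.r^[T.len p - m] p

variable {T}

theorem len_iter (p : T.Pos) (j : ℕ) : T.len (T.r^[j] p) = T.len p - j := by
  induction j with
  | zero => simp
  | succ j ih => rw [Function.iterate_succ_apply', T.len_r, ih]; omega

theorem pre_len (p : T.Pos) {m : ℕ} (h : m ≤ T.len p) : T.len (T.pre p m) = m := by
  rw [pre, len_iter]; omega

theorem pre_self (p : T.Pos) {m : ℕ} (h : T.len p ≤ m) : T.pre p m = p := by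
  rw [pre, Nat.sub_eq_zero_of_le h]; rfl

theorem pre_pre (p : T.Pos) {m j : ℕ} (h : j ≤ m) (hm : m ≤ T.len p) :
    T.pre (T.pre p m) j = T.pre p j := by
  unfold pre
  rw [len_iter, ← Function.iterate_add_apply]
  congr 1
  omega

theorem pre_r (p : T.Pos) {m : ℕ} (h : m < T.len p) : T.pre (T.r p) m = T.pre p m := by
  unfold pre
  rw [T.len_r, ← Function.iterate_succ_apply]
  congr 1
  omega

theorem r_pre (p : T.Pos) {m : ℕ} (h : m + 1 ≤ T.len p) : T.r (T.pre p (m + 1)) = T.pre p m := by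
  unfold pre
  rw [← Function.iterate_succ_apply' T.r]
  congr 1
  omega

theorem succ_pre (p : T.Pos) {m : ℕ} (h : m + 1 ≤ T.len p) :
    T.Succ (T.pre p m) (T.pre p (m + 1)) :=
  ⟨r_pre p h, by rw [pre_len p h, pre_len p (by omega)]⟩

/-- plays -/
@[ext] structure Body (T : GTree) where
  x : ℕ → T.Pos
  hlen : ∀ n, T.len (x n) = n
  hr : ∀ n, T.r (x (n + 1)) = x n

theorem Body.iter (x : Body T) (n j : ℕ) : T.r^[j] (x.x (n + j)) = x.x n := by
  induction j with
  | zero => rfl
  | succ j ih =>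
    rw [Function.iterate_succ_apply, show n + (j + 1) = (n + j) + 1 by omega, x.hr, ih]

theorem Body.pre (x : Body T) {m n : ℕ} (h : m ≤ n) : T.pre (x.x n) m = x.x m := by
  unfold GTree.pre
  rw [x.hlen]
  obtain ⟨j, rfl⟩ := Nat.exists_eq_add_of_le h
  rw [Nat.add_sub_cancel_left]
  exact x.iter m j

theorem Body.succ (x : Body T) (n : ℕ) : T.Succ (x.x n) (x.x (n + 1)) :=
  ⟨x.hr n, by rw [x.hlen, x.hlen]⟩

/-- strategies (for both players: at each position, a successor) -/
@[ext] structure Strat (T : GTree) where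
  s : T.Pos → T.Pos
  hs : ∀ p, T.Succ p (s p)

noncomputable def dflt (T : GTree) : Strat T :=
  ⟨fun p => (T.ext p).choose, fun p => (T.ext p).choose_spec⟩

/-- the parity of the moves of a player: `false` is player I (moves at even lengths) -/
def par (b : Bool) : ℕ := if b then 1 else 0

/-- the play `x` is consistent with the strategy `σ` of player `b` -/
def Cons (b : Bool) (σ : Strat T) (x : Body T) : Prop :=
  ∀ n, n % 2 = par b → x.x (n + 1) = σ.s (x.x n)

/-- length and predecessor preserving maps -/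
structure Hom (Q T : GTree) where
  f : Q.Pos → T.Pos
  flen : ∀ q, T.len (f q) = Q.len q
  fr : ∀ q, T.r (f q) = f (Q.r q)

namespace Hom
variable {Q T R : GTree}

def id (T : GTree) : Hom T T := ⟨fun p => p, fun _ => rfl, fun _ => rfl⟩

def comp (g : Hom Q T) (h : Hom R Q) : Hom R T :=
  ⟨fun p => g.f (h.f p), fun p => by rw [g.flen, h.flen], fun p => by rw [g.fr, h.fr]⟩

def body (g : Hom Q T) (y : Body Q) : Body T :=
  ⟨fun n => g.f (y.x n), fun n => by rw [g.flen, y.hlen], fun n => by rw [g.fr, y.hr]⟩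

theorem body_comp (g : Hom Q T) (h : Hom R Q) (y : Body R) :
    (g.comp h).body y = g.body (h.body y) := rfl

theorem succ (g : Hom Q T) {p q : Q.Pos} (h : Q.Succ p q) : T.Succ (g.f p) (g.f q) :=
  ⟨by rw [g.fr, h.1], by rw [g.flen, g.flen, h.2]⟩

end Hom

/-- `k`-coverings (with `N = 2 k`) -/
structure Cov (N : ℕ) (Q T : GTree) extends Hom Q T where
  inj : ∀ q q', Q.len q ≤ N → f q = f q' → q = q'
  surj : ∀ p, T.len p ≤ N → ∃ q, f q = p
  φ : Bool → Strat Q → Strat T
  loc : ∀ b n σ σ', (∀ q, Q.len q < n → σ.s q = σ'.s q) →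
    ∀ p, T.len p < n → (φ b σ).s p = (φ b σ').s p
  agree : ∀ b σ q, Q.len q < N → (φ b σ).s (f q) = f (σ.s q)
  lift : ∀ b σ x, Cons b (φ b σ) x → ∃ y, Cons b σ y ∧ toHom.body y = x

namespace Cov
variable {Q T R : GTree} {N M : ℕ}

def mono (c : Cov M Q T) (h : N ≤ M) : Cov N Q T where
  toHom := c.toHom
  inj := fun q q' hq e => c.inj q q' (hq.trans h) e
  surj := fun p hp => c.surj p (hp.trans h)
  φ := c.φ
  loc := c.loc
  agree := fun b σ q hq => c.agree b σ q (hq.trans_le h)
  lift := c.lift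

def id (N : ℕ) (T : GTree) : Cov N T T where
  toHom := Hom.id T
  inj := fun _ _ _ e => e
  surj := fun p _ => ⟨p, rfl⟩
  φ := fun _ σ => σ
  loc := fun _ _ _ _ h p hp => h p hp
  agree := fun _ _ _ _ => rfl
  lift := fun _ _ x hx => ⟨x, hx, rfl⟩

def comp (c : Cov N Q T) (d : Cov N R Q) : Cov N R T where
  toHom := c.toHom.comp d.toHom
  inj := fun q q' hq e => by
    apply d.inj q q' hq
    apply c.inj _ _ _ e
    rw [d.flen]; exact hq
  surj := fun p hp => by
    obtain ⟨q, rfl⟩ := c.surj p hp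
    obtain ⟨q', rfl⟩ := d.surj q (by rw [← c.flen]; exact hp)
    exact ⟨q', rfl⟩
  φ := fun b σ => c.φ b (d.φ b σ)
  loc := fun b n σ σ' h p hp => c.loc b n _ _ (fun q hq => d.loc b n _ _ h q hq) p hp
  agree := fun b σ q hq => by
    show (c.φ b (d.φ b σ)).s (c.f (d.f q)) = c.f (d.f (σ.s q))
    rw [c.agree b _ _ (by rw [d.flen]; exact hq), d.agree b _ _ hq]
  lift := fun b σ x hx => by
    obtain ⟨y, hy, rfl⟩ := c.lift b _ x hx
    obtain ⟨z, hz, rfl⟩ := d.lift b _ y hy
    exact ⟨z, hz, rfl⟩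

end Cov

/-- open sets of plays -/
def IsO (X : Set (Body T)) : Prop :=
  ∀ x ∈ X, ∃ n, ∀ y : Body T, y.x n = x.x n → y ∈ X

theorem IsO.iUnion {ι : Type*} {X : ι → Set (Body T)} (h : ∀ i, IsO (X i)) :
    IsO (⋃ i, X i) := by
  intro x hx
  obtain ⟨i, hi⟩ := Set.mem_iUnion.1 hx
  obtain ⟨n, hn⟩ := h i x hi
  exact ⟨n, fun y hy => Set.mem_iUnion.2 ⟨i, hn y hy⟩⟩

theorem IsO.preimage {Q T : GTree} {X : Set (Body T)} (h : IsO X) (g : Hom Q T) :
    IsO (g.body ⁻¹' X) := by
  intro x hx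
  obtain ⟨n, hn⟩ := h _ hx
  exact ⟨n, fun y hy => hn _ (by show g.f (y.x n) = g.f (x.x n); rw [hy])⟩

def IsCl (X : Set (Body T)) : Prop := IsO X ∧ IsO Xᶜ

theorem IsCl.compl {X : Set (Body T)} (h : IsCl X) : IsCl Xᶜ := ⟨h.2, by rw [compl_compl]; exact h.1⟩

end GTree

end Pool.Agent.H86.Det
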