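import Pool.Agent.H86.Det.Open

/-!
# Unravelling closed sets: the auxiliary game
-/

namespace Pool.Agent.H86.Det

namespace GTree

section
variable (T : GTree) (N : ℕ) (D : Set T.Pos)

/-- comparable positions -/
def Cmp (p u : T.Pos) : Prop := ∀ j, j ≤ T.len p → j ≤ T.len u → T.pre p j = T.pre u j

/-- quasistrategy of player I from the position `s` (of odd length) -/
structure QI (s : T.Pos) (a : Set T.Pos) : Prop where
  mem : s ∈ a
  ge : ∀ q ∈ a, T.len s ≤ T.len q ∧ T.pre q (T.len s) = s
  down : ∀ q ∈ a, T.len s < T.len q → T.r q ∈ a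
  opp : ∀ q ∈ a, T.len q % 2 = 1 → ∀ q', T.Succ q q' → q' ∈ a
  own : ∀ q ∈ a, T.len q % 2 = 0 → ∃ q', T.Succ q q' ∧ q' ∈ a

/-- quasistrategy of player II in `a`, avoiding `D`, from the position `s` (of length `N + 2`) -/
structure QII (a : Set T.Pos) (s : T.Pos) (S : Set T.Pos) : Prop where
  mem : s ∈ S
  sub : S ⊆ a
  nd : ∀ q ∈ S, q ∉ D
  ge : ∀ q ∈ S, N + 2 ≤ T.len q
  down : ∀ q ∈ S, N + 2 < T.len q → T.r q ∈ S
  opp : ∀ q ∈ S, T.len q % 2 = 0 → ∀ q' ∈ a, T.Succ q q' → q' ∈ S
  own : ∀ q ∈ S, T.len q % 2 = 1 → ∃ q', T.Succ q q' ∧ q' ∈ S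

abbrev Dat := T.Pos ⊕ Set T.Pos

/-- the condition on the data attached to a position of length at least `N + 2` -/
def C4 (p : T.Pos) (a : Set T.Pos) : Dat T → Prop
  | Sum.inl u => u ∈ a ∧ u ∈ D ∧ N + 2 ≤ T.len u ∧ T.Cmp p u
  | Sum.inr S => T.QII N D a (T.pre p (N + 2)) S ∧ p ∈ S

/-- the trivial datum -/
abbrev d0 : Dat T := Sum.inr ∅

structure Valid (p : T.Pos) (a : Set T.Pos) (b : Dat T) : Prop where
  c1 : T.len p ≤ N → a = ∅
  c2 : T.len p ≤ N + 1 → b = T.d0
  c3 : N + 1 ≤ T.len p → T.QI (T.pre p (N + 1)) a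
  c4 : N + 2 ≤ T.len p → T.C4 N D p a b

@[ext] structure QPos where
  p : T.Pos
  a : Set T.Pos
  b : Dat T
  valid : T.Valid N D p a b

variable {T N D}

theorem Cmp.r {p u : T.Pos} (h : T.Cmp p u) (hp : 0 < T.len p) : T.Cmp (T.r p) u := by
  intro j h1 h2
  rw [T.len_r] at h1
  rw [pre_r p (by omega)]
  exact h j (by omega) h2

open Classical in
noncomputable def QPos.r (z : QPos T N D) : QPos T N D where
  p := T.r z.p
  a := if T.len z.p ≤ N + 1 then ∅ else z.a
  b := if T.len z.p ≤ N + 2 then T.d0 else z.b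
  valid := by
    constructor
    · intro h
      rw [T.len_r] at h
      rw [if_pos (by omega)]
    · intro h
      rw [T.len_r] at h
      rw [if_pos (by omega)]
    · intro h
      rw [T.len_r] at h
      rw [if_neg (by omega), pre_r _ (by omega)]
      exact z.valid.c3 (by omega)
    · intro h
      rw [T.len_r] at h
      rw [if_neg (by omega), if_neg (by omega)]
      have h4 := z.valid.c4 (by omega)
      rcases hb : z.b with u | S
      · rw [hb] at h4
        exact ⟨h4.1, h4.2.1, h4.2.2.1, h4.2.2.2.r (by omega)⟩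
      · rw [hb] at h4
        refine ⟨?_, h4.1.down _ h4.2 (by omega)⟩
        rw [pre_r _ (by omega)]
        exact h4.1

theorem QPos.r_a {z : QPos T N D} (h : N + 1 < T.len z.p) : z.r.a = z.a := by
  show (if T.len z.p ≤ N + 1 then ∅ else z.a) = z.a
  rw [if_neg (by omega)]

theorem QPos.r_b {z : QPos T N D} (h : N + 2 < T.len z.p) : z.r.b = z.b := by
  show (if T.len z.p ≤ N + 2 then T.d0 else z.b) = z.b
  rw [if_neg (by omega)]

theorem valid_short {p : T.Pos} (h : T.len p ≤ N) : T.Valid N D p ∅ T.d0 :=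
  ⟨fun _ => rfl, fun _ => rfl, fun h' => by omega, fun h' => by omega⟩

theorem cone_QI {s : T.Pos} : T.QI s {q | T.len s ≤ T.len q ∧ T.pre q (T.len s) = s} := by
  refine ⟨⟨le_rfl, pre_self s le_rfl⟩, fun q hq => hq, ?_, ?_, ?_⟩
  · intro q hq hl
    refine ⟨by rw [T.len_r]; omega, ?_⟩
    rw [pre_r q hl]; exact hq.2
  · intro q hq _ q' hs
    refine ⟨by have := hs.2; have := hq.1; omega, ?_⟩
    rw [← pre_r q' (by have := hs.2; have := hq.1; omega), hs.1]
    exact hq.2
  · intro q hq _
    obtain ⟨q', h1, h2⟩ := T.ext q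
    refine ⟨q', ⟨h1, h2⟩, by have := hq.1; omega, ?_⟩
    rw [← pre_r q' (by have := hq.1; omega), h1]
    exact hq.2

theorem QPos.ext_exists (hN : N % 2 = 0) (z : QPos T N D) : ∃ z' : QPos T N D, z'.r = z ∧ T.len z'.p = T.len z.p + 1 := by
  classical
  have c1 := z.valid.c1
  have c2 := z.valid.c2
  have c3 := z.valid.c3
  have c4 := z.valid.c4
  rcases lt_trichotomy (T.len z.p) (N + 1) with h | h | h
  · obtain ⟨p', h1, h2⟩ := T.ext z.p
    by_cases h' : T.len z.p < N
    · refine ⟨⟨p', ∅, T.d0, valid_short (by omega)⟩, ?_, h2⟩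
      apply QPos.ext
      · exact h1
      · show (if T.len p' ≤ N + 1 then ∅ else (∅ : Set T.Pos)) = z.a
        rw [c1 (by omega)]; simp
      · show (if T.len p' ≤ N + 2 then T.d0 else T.d0) = z.b
        rw [c2 (by omega)]; simp
    · have hl : T.len p' = N + 1 := by omega
      have hq := cone_QI (T := T) (s := p')
      refine ⟨⟨p', {q | T.len p' ≤ T.len q ∧ T.pre q (T.len p') = p'}, T.d0, ?_⟩, ?_, h2⟩
      · refine ⟨fun h' => by omega, fun _ => rfl, fun _ => ?_, fun h' => by omega⟩
        rw [pre_self p' (by omega)]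
        exact hq
      · apply QPos.ext
        · exact h1
        · show (if T.len p' ≤ N + 1 then ∅ else _) = z.a
          rw [c1 (by omega), if_pos (by omega)]
        · show (if T.len p' ≤ N + 2 then T.d0 else T.d0) = z.b
          rw [c2 (by omega)]; simp
  · -- the crucial level
    obtain ⟨p', h1, h2⟩ := T.ext z.p
    have hQ := c3 (by omega)
    rw [pre_self z.p (by omega)] at hQ
    have hp'pre : T.pre p' (N + 1) = z.p := by
      rw [← pre_r p' (by omega), h1, pre_self _ (by omega)]
    by_cases hu : ∃ u, u ∈ z.a ∧ u ∈ D ∧ N + 2 ≤ T.len u ∧ T.Cmp p' u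
    · obtain ⟨u, hu⟩ := hu
      refine ⟨⟨p', z.a, Sum.inl u, ?_⟩, ?_, h2⟩
      · refine ⟨fun h' => by omega, fun h' => by omega, fun _ => ?_, fun _ => hu⟩
        rw [hp'pre]; exact hQ
      · apply QPos.ext
        · exact h1
        · show (if T.len p' ≤ N + 1 then ∅ else z.a) = z.a
          rw [if_neg (by omega)]
        · show (if T.len p' ≤ N + 2 then T.d0 else _) = z.b
          rw [c2 (by omega), if_pos (by omega)]
    · push Not at hu
      have hp'a : p' ∈ z.a := hQ.opp _ hQ.mem (by omega) _ ⟨h1, h2⟩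
      have hlen : T.len p' = N + 2 := by omega
      have hS : T.QII N D z.a p' {q | q ∈ z.a ∧ N + 2 ≤ T.len q ∧ T.pre q (N + 2) = p'} := by
        refine ⟨⟨hp'a, by omega, pre_self _ (by omega)⟩, fun q hq => hq.1, ?_, fun q hq => hq.2.1,
          ?_, ?_, ?_⟩
        · intro q hq hqD
          refine hu q hq.1 hqD hq.2.1 ?_
          intro j hj hj'
          rw [← hq.2.2, pre_pre _ (by omega) hq.2.1]
        · intro q hq hl
          refine ⟨hQ.down q hq.1 (by omega), by rw [T.len_r]; omega, ?_⟩
          rw [pre_r q hl]; exact hq.2.2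
        · intro q hq _ q' hq' hs
          have := hs.2
          have := hq.2.1
          refine ⟨hq', by omega, ?_⟩
          rw [← pre_r q' (by omega), hs.1]
          exact hq.2.2
        · intro q hq hpar
          obtain ⟨q', hs⟩ := T.ext q
          have := hs.2
          have := hq.2.1
          refine ⟨q', hs, hQ.opp q hq.1 hpar q' hs, by omega, ?_⟩
          rw [← pre_r q' (by omega), hs.1]
          exact hq.2.2
      refine ⟨⟨p', z.a, Sum.inr {q | q ∈ z.a ∧ N + 2 ≤ T.len q ∧ T.pre q (N + 2) = p'}, ?_⟩,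
        ?_, h2⟩
      · refine ⟨fun h' => by omega, fun h' => by omega, fun _ => ?_, fun _ => ⟨?_, hS.mem⟩⟩
        · rw [hp'pre]; exact hQ
        · rw [pre_self p' (by omega)]; exact hS
      · apply QPos.ext
        · exact h1
        · show (if T.len p' ≤ N + 1 then ∅ else z.a) = z.a
          rw [if_neg (by omega)]
        · show (if T.len p' ≤ N + 2 then T.d0 else _) = z.b
          rw [c2 (by omega), if_pos (by omega)]
  · -- long positions
    have h3 := c3 (by omega)
    have h4 := c4 (by omega)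
    have key : ∃ p', T.Succ z.p p' ∧ T.C4 N D p' z.a z.b := by
      rcases hb : z.b with u | S
      · rw [hb] at h4
        by_cases hlu : T.len u ≤ T.len z.p
        · obtain ⟨p', hs⟩ := T.ext z.p
          refine ⟨p', hs, h4.1, h4.2.1, h4.2.2.1, ?_⟩
          intro j hj hj'
          rw [← pre_r p' (by have := hs.2; omega), hs.1]
          exact h4.2.2.2 j (by omega) hj'
        · have e : T.pre u (T.len z.p) = z.p := by
            rw [← h4.2.2.2 _ le_rfl (by omega), pre_self _ le_rfl]
          have hs := succ_pre u (m := T.len z.p) (by omega)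
          rw [e] at hs
          refine ⟨_, hs, h4.1, h4.2.1, h4.2.2.1, ?_⟩
          intro j hj hj'
          rw [pre_pre _ (by have := hs.2; omega) (by omega)]
      · rw [hb] at h4
        have hsub := h4.1.sub h4.2
        obtain ⟨p', hs, hp'⟩ : ∃ q', T.Succ z.p q' ∧ q' ∈ S := by
          by_cases hpar : T.len z.p % 2 = 1
          · exact h4.1.own _ h4.2 hpar
          · obtain ⟨q', h1, h2⟩ := h3.own _ hsub (by omega)
            exact ⟨q', h1, h4.1.opp _ h4.2 (by omega) _ h2 h1⟩
        refine ⟨p', hs, ?_, hp'⟩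
        rw [← pre_r p' (by have := hs.2; omega), hs.1]
        exact h4.1
    obtain ⟨p', hs, hC⟩ := key
    have h2 := hs.2
    refine ⟨⟨p', z.a, z.b, ?_⟩, ?_, h2⟩
    · refine ⟨fun h' => by omega, fun h' => by omega, fun _ => ?_, fun _ => hC⟩
      rw [← pre_r p' (by omega), hs.1]
      exact h3
    · apply QPos.ext
      · exact hs.1
      · show (if T.len p' ≤ N + 1 then ∅ else z.a) = z.a
        rw [if_neg (by omega)]
      · show (if T.len p' ≤ N + 2 then T.d0 else z.b) = z.b
        rw [if_neg (by omega)]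

variable (T N D)

/-- the auxiliary game -/
noncomputable def aux (hN : N % 2 = 0) : GTree where
  Pos := QPos T N D
  r := QPos.r
  len := fun z => T.len z.p
  len_r := fun z => T.len_r z.p
  ext := QPos.ext_exists hN

noncomputable def auxHom (hN : N % 2 = 0) : Hom (aux T N D hN) T where
  f := fun z => z.p
  flen := fun _ => rfl
  fr := fun _ => rfl

variable {T N D}

theorem aux_b {hN : N % 2 = 0} (y : Body (aux T N D hN)) (n : ℕ) (hn : N + 2 ≤ n) :
    (y.x n).b = (y.x (N + 2)).b := by
  induction n, hn using Nat.le_induction with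
  | base => rfl
  | succ n hn ih =>
    rw [← ih, ← y.hr n]
    refine (QPos.r_b ?_).symm
    have : T.len (y.x (n + 1)).p = n + 1 := y.hlen (n + 1)
    omega

/-- the closed set avoiding `D` becomes clopen -/
theorem aux_clopen (hN : N % 2 = 0) (hD : ∀ p q, T.Succ p q → p ∈ D → q ∈ D) :
    IsCl ((auxHom T N D hN).body ⁻¹' {x : Body T | ∀ n, x.x n ∉ D}) := by
  have key : ∀ y : Body (aux T N D hN),
      (y ∈ (auxHom T N D hN).body ⁻¹' {x : Body T | ∀ n, x.x n ∉ D}) ↔
        ∃ S, (y.x (N + 2)).b = Sum.inr S := by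
    intro y
    have hlen : ∀ n, T.len (y.x n).p = n := y.hlen
    constructor
    · intro h
      rcases hb : (y.x (N + 2)).b with u | S
      · exfalso
        have h4 := (y.x (N + 2)).valid.c4 (by rw [hlen])
        rw [hb] at h4
        have h5 := (y.x (T.len u)).valid.c4 (by rw [hlen]; exact h4.2.2.1)
        rw [aux_b y _ h4.2.2.1, hb] at h5
        have h6 := h5.2.2.2 (T.len u) (by rw [hlen]) le_rfl
        rw [pre_self _ (by rw [hlen]), pre_self _ le_rfl] at h6
        apply h (T.len u)
        show (y.x (T.len u)).p ∈ D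
        rw [h6]
        exact h4.2.1
      · exact ⟨S, rfl⟩
    · rintro ⟨S, hS⟩ n hn
      have hn' : (y.x n).p ∈ D := hn
      have up : ∀ d, (y.x (n + d)).p ∈ D := by
        intro d
        induction d with
        | zero => exact hn'
        | succ d ih =>
          refine hD _ _ ?_ ih
          exact (auxHom T N D hN).succ (y.succ (n + d))
      have h5 := (y.x (n + (N + 2))).valid.c4 (by rw [hlen]; omega)
      rw [aux_b y _ (by omega), hS] at h5
      exact h5.1.nd _ h5.2 (up (N + 2))
  constructor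
  · intro y hy
    refine ⟨N + 2, fun y' hy' => ?_⟩
    rw [key] at hy ⊢
    rw [hy']
    exact hy
  · intro y hy
    refine ⟨N + 2, fun y' hy' => ?_⟩
    rw [Set.mem_compl_iff, key] at hy ⊢
    rw [hy']
    exact hy

end

end GTree

end Pool.Agent.H86.Det
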