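import Pool.Agent.H86.Det.Closed

/-!
# Unravelling closed sets: the strategies
-/

namespace Pool.Agent.H86.Det

namespace GTree

section
variable {T : GTree} {N : ℕ} {D : Set T.Pos} {hN : N % 2 = 0}

noncomputable def val (σ : Strat (aux T N D hN)) (p : T.Pos) (a : Set T.Pos) (b : Dat T) : T.Pos :=
  open Classical in if h : T.Valid N D p a b then (σ.s ⟨p, a, b, h⟩).p else (dflt T).s p

noncomputable def rep (σ : Strat (aux T N D hN)) (p : T.Pos) (a : Set T.Pos) (b : Dat T) :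
    Set T.Pos × Dat T :=
  open Classical in if h : T.Valid N D p a b then ((σ.s ⟨p, a, b, h⟩).a, (σ.s ⟨p, a, b, h⟩).b)
    else (∅, T.d0)

theorem val_of {σ : Strat (aux T N D hN)} {p : T.Pos} {a : Set T.Pos} {b : Dat T}
    (h : T.Valid N D p a b) : val σ p a b = (σ.s ⟨p, a, b, h⟩).p := by
  rw [val, dif_pos h]

theorem rep_of {σ : Strat (aux T N D hN)} {p : T.Pos} {a : Set T.Pos} {b : Dat T}
    (h : T.Valid N D p a b) :
    rep σ p a b = ((σ.s ⟨p, a, b, h⟩).a, (σ.s ⟨p, a, b, h⟩).b) := by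
  rw [rep, dif_pos h]

theorem val_succ (σ : Strat (aux T N D hN)) (p : T.Pos) (a : Set T.Pos) (b : Dat T) :
    T.Succ p (val σ p a b) := by
  by_cases h : T.Valid N D p a b
  · rw [val_of h]
    exact (auxHom T N D hN).succ (σ.hs ⟨p, a, b, h⟩)
  · rw [val, dif_neg h]
    exact (dflt T).hs p

theorem val_loc {σ σ' : Strat (aux T N D hN)} {n : ℕ}
    (h : ∀ q, (aux T N D hN).len q < n → σ.s q = σ'.s q) {p : T.Pos} (hp : T.len p < n)
    (a : Set T.Pos) (b : Dat T) : val σ p a b = val σ' p a b := by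
  by_cases hv : T.Valid N D p a b
  · rw [val_of hv, val_of hv, h ⟨p, a, b, hv⟩ hp]
  · rw [val, dif_neg hv, val, dif_neg hv]

theorem rep_loc {σ σ' : Strat (aux T N D hN)} {n : ℕ}
    (h : ∀ q, (aux T N D hN).len q < n → σ.s q = σ'.s q) {p : T.Pos} (hp : T.len p < n)
    (a : Set T.Pos) (b : Dat T) : rep σ p a b = rep σ' p a b := by
  by_cases hv : T.Valid N D p a b
  · rw [rep_of hv, rep_of hv, h ⟨p, a, b, hv⟩ hp]
  · rw [rep, dif_neg hv, rep, dif_neg hv]

/-- target set of a relation -/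
def UR (R : Set T.Pos → T.Pos → Prop) : Set T.Pos := {u | ∃ a, R a u}

noncomputable def pick (R : Set T.Pos → T.Pos → Prop) (u : T.Pos) : Set T.Pos :=
  open Classical in if h : ∃ a, R a u then h.choose else ∅

theorem pick_spec {R : Set T.Pos → T.Pos → Prop} {u : T.Pos} (h : u ∈ UR R) : R (pick R u) u := by
  have h' : ∃ a, R a u := h
  rw [pick, dif_pos h']
  exact h'.choose_spec

/-- least natural number with a property -/
noncomputable def lst (P : ℕ → Prop) : ℕ := sInf {n | P n}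

theorem lst_eq {P : ℕ → Prop} {m : ℕ} (h1 : P m) (h2 : ∀ m', m' < m → ¬ P m') : lst P = m := by
  have hne : {n | P n}.Nonempty := ⟨m, h1⟩
  have h3 : P (sInf {n | P n}) := Nat.sInf_mem hne
  have h4 : sInf {n | P n} ≤ m := Nat.sInf_le h1
  rcases Nat.lt_or_ge (sInf {n | P n}) m with h | h
  · exact absurd h3 (h2 _ h)
  · exact le_antisymm h4 h

variable (N) in
noncomputable def follow (b : Bool) (L : ℕ) (R : Set T.Pos → T.Pos → Prop)
    (a₁ : Set T.Pos) (b₁ : Dat T) (v : Set T.Pos → Dat T → T.Pos) (p : T.Pos) : T.Pos :=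
  open Classical in
  if ∃ m, N + 2 ≤ m ∧ m ≤ T.len p ∧ T.pre p m ∈ UR R then
    v (pick R (T.pre p (lst fun m => N + 2 ≤ m ∧ m ≤ T.len p ∧ T.pre p m ∈ UR R)))
      (Sum.inl (T.pre p (lst fun m => N + 2 ≤ m ∧ m ≤ T.len p ∧ T.pre p m ∈ UR R)))
  else if ∃ j, L ≤ j ∧ j ≤ T.len p ∧ T.pre p j ∈ W b (UR R) then
    (wst b (UR R) (T.pre p (lst fun j => L ≤ j ∧ j ≤ T.len p ∧ T.pre p j ∈ W b (UR R)))).s p
  else v a₁ b₁

theorem follow_succ {b : Bool} {L : ℕ} {R : Set T.Pos → T.Pos → Prop}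
    {a₁ : Set T.Pos} {b₁ : Dat T} {v : Set T.Pos → Dat T → T.Pos} {p : T.Pos}
    (hv : ∀ a b, T.Succ p (v a b)) : T.Succ p (follow N b L R a₁ b₁ v p) := by
  unfold follow
  split_ifs
  · exact hv _ _
  · exact (wst _ _ _).hs p
  · exact hv _ _

theorem follow_1 {b : Bool} {L : ℕ} {R : Set T.Pos → T.Pos → Prop}
    {a₁ : Set T.Pos} {b₁ : Dat T} {v : Set T.Pos → Dat T → T.Pos} (x : Body T) {n m : ℕ}
    (h1 : N + 2 ≤ m) (h2 : m ≤ n) (h3 : x.x m ∈ UR R)
    (h4 : ∀ m', N + 2 ≤ m' → m' < m → x.x m' ∉ UR R) :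
    follow N b L R a₁ b₁ v (x.x n) = v (pick R (x.x m)) (Sum.inl (x.x m)) := by
  classical
  have h : ∃ m, N + 2 ≤ m ∧ m ≤ T.len (x.x n) ∧ T.pre (x.x n) m ∈ UR R :=
    ⟨m, h1, by rw [x.hlen]; exact h2, by rw [x.pre h2]; exact h3⟩
  have hm : (lst fun m => N + 2 ≤ m ∧ m ≤ T.len (x.x n) ∧ T.pre (x.x n) m ∈ UR R) = m := by
    refine lst_eq ⟨h1, by rw [x.hlen]; exact h2, by rw [x.pre h2]; exact h3⟩ ?_
    intro m' hm' hcon
    apply h4 m' hcon.1 hm'
    have := hcon.2.2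
    rwa [x.pre (by omega)] at this
  have e : T.pre (x.x n) m = x.x m := x.pre h2
  unfold follow
  rw [if_pos h, hm, e]

theorem follow_2 {b : Bool} {L : ℕ} {R : Set T.Pos → T.Pos → Prop}
    {a₁ : Set T.Pos} {b₁ : Dat T} {v : Set T.Pos → Dat T → T.Pos} (x : Body T) {n j : ℕ}
    (h0 : ∀ m', N + 2 ≤ m' → m' ≤ n → x.x m' ∉ UR R)
    (h1 : L ≤ j) (h2 : j ≤ n) (h3 : x.x j ∈ W b (UR R))
    (h4 : ∀ j', L ≤ j' → j' < j → x.x j' ∉ W b (UR R)) :
    follow N b L R a₁ b₁ v (x.x n) = (wst b (UR R) (x.x j)).s (x.x n) := by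
  classical
  have h' : ¬ ∃ m, N + 2 ≤ m ∧ m ≤ T.len (x.x n) ∧ T.pre (x.x n) m ∈ UR R := by
    rintro ⟨m, e1, e2, e3⟩
    rw [x.hlen] at e2
    rw [x.pre e2] at e3
    exact h0 m e1 e2 e3
  have h : ∃ j, L ≤ j ∧ j ≤ T.len (x.x n) ∧ T.pre (x.x n) j ∈ W b (UR R) :=
    ⟨j, h1, by rw [x.hlen]; exact h2, by rw [x.pre h2]; exact h3⟩
  have hm : (lst fun j => L ≤ j ∧ j ≤ T.len (x.x n) ∧ T.pre (x.x n) j ∈ W b (UR R)) = j := by
    refine lst_eq ⟨h1, by rw [x.hlen]; exact h2, by rw [x.pre h2]; exact h3⟩ ?_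
    intro m' hm' hcon
    apply h4 m' hcon.1 hm'
    have := hcon.2.2
    rwa [x.pre (by omega)] at this
  have e : T.pre (x.x n) j = x.x j := x.pre h2
  unfold follow
  rw [if_neg h', if_pos h, hm, e]

theorem follow_3 {b : Bool} {L : ℕ} {R : Set T.Pos → T.Pos → Prop}
    {a₁ : Set T.Pos} {b₁ : Dat T} {v : Set T.Pos → Dat T → T.Pos} (x : Body T) {n : ℕ}
    (h0 : ∀ m', N + 2 ≤ m' → m' ≤ n → x.x m' ∉ UR R)
    (h1 : ∀ j', L ≤ j' → j' ≤ n → x.x j' ∉ W b (UR R)) :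
    follow N b L R a₁ b₁ v (x.x n) = v a₁ b₁ := by
  have h' : ¬ ∃ m, N + 2 ≤ m ∧ m ≤ T.len (x.x n) ∧ T.pre (x.x n) m ∈ UR R := by
    rintro ⟨m, e1, e2, e3⟩
    rw [x.hlen] at e2
    rw [x.pre e2] at e3
    exact h0 m e1 e2 e3
  have h'' : ¬ ∃ m, L ≤ m ∧ m ≤ T.len (x.x n) ∧ T.pre (x.x n) m ∈ W b (UR R) := by
    rintro ⟨m, e1, e2, e3⟩
    rw [x.hlen] at e2
    rw [x.pre e2] at e3
    exact h1 m e1 e2 e3
  unfold follow
  rw [if_neg h', if_neg h'']

/-- a play following the strategy either meets the target or stays outside the winning region -/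
theorem dich {b : Bool} {L : ℕ} {R : Set T.Pos → T.Pos → Prop}
    (hU : ∀ u ∈ UR R, N + 2 ≤ T.len u) (x : Body T)
    (a₁ : ℕ → Set T.Pos) (b₁ : ℕ → Dat T) (v : ℕ → Set T.Pos → Dat T → T.Pos)
    (hx : ∀ n, L ≤ n → n % 2 = par b →
      x.x (n + 1) = follow N b L R (a₁ n) (b₁ n) (v n) (x.x n)) :
    (∃ m, N + 2 ≤ m ∧ x.x m ∈ UR R ∧ ∀ m', N + 2 ≤ m' → m' < m → x.x m' ∉ UR R) ∨
    ((∀ j, L ≤ j → x.x j ∉ W b (UR R)) ∧ ∀ m, N + 2 ≤ m → x.x m ∉ UR R) := by
  classical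
  by_cases h : ∃ m, N + 2 ≤ m ∧ x.x m ∈ UR R
  · left
    refine ⟨Nat.find h, (Nat.find_spec h).1, (Nat.find_spec h).2, ?_⟩
    intro m' h1 h2 h3
    exact Nat.find_min h h2 ⟨h1, h3⟩
  · right
    push Not at h
    refine ⟨?_, h⟩
    intro j hj hW
    have hex : ∃ j, L ≤ j ∧ x.x j ∈ W b (UR R) := ⟨j, hj, hW⟩
    obtain ⟨h1, h2⟩ := Nat.find_spec hex
    set i := Nat.find hex with hi
    have hmin : ∀ j', L ≤ j' → j' < i → x.x j' ∉ W b (UR R) := by
      intro j' h1 h3 h4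
      exact Nat.find_min hex h3 ⟨h1, h4⟩
    obtain ⟨n, hn, hnU⟩ := wst_spec h2 x (by rw [x.hlen]) (fun n hn hp => by
      rw [x.hlen] at hn
      rw [hx n (by omega) hp]
      exact follow_2 x (fun m' e _ => h m' e) h1 hn h2 hmin)
    refine h n ?_ hnU
    have := hU _ hnU
    rwa [x.hlen] at this

variable (hN) in
/-- a play of the auxiliary game over the play `x` -/
noncomputable def mkB (x : Body T) (A : Set T.Pos) (B : Dat T) (hA : T.QI (x.x (N + 1)) A)
    (hB : ∀ n, N + 2 ≤ n → T.C4 N D (x.x n) A B) : Body (aux T N D hN) where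
  x := fun n => ⟨x.x n, if n ≤ N then ∅ else A, if n ≤ N + 1 then T.d0 else B, by
    constructor
    · intro h
      rw [x.hlen] at h
      rw [if_pos h]
    · intro h
      rw [x.hlen] at h
      rw [if_pos h]
    · intro h
      rw [x.hlen] at h
      rw [if_neg (by omega), x.pre h]
      exact hA
    · intro h
      rw [x.hlen] at h
      rw [if_neg (by omega), if_neg (by omega)]
      exact hB n h⟩
  hlen := fun n => x.hlen n
  hr := fun n => by
    apply QPos.ext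
    · exact x.hr n
    · show (if T.len (x.x (n + 1)) ≤ N + 1 then ∅ else (if n + 1 ≤ N then ∅ else A)) =
        (if n ≤ N then ∅ else A)
      rw [x.hlen]
      by_cases h : n ≤ N
      · rw [if_pos h, if_pos (by omega)]
      · rw [if_neg h, if_neg (by omega), if_neg (by omega)]
    · show (if T.len (x.x (n + 1)) ≤ N + 2 then T.d0 else (if n + 1 ≤ N + 1 then T.d0 else B)) =
        (if n ≤ N + 1 then T.d0 else B)
      rw [x.hlen]
      by_cases h : n ≤ N + 1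
      · rw [if_pos h, if_pos (by omega)]
      · rw [if_neg h, if_neg (by omega), if_neg (by omega)]

theorem mkB_cons (x : Body T) (A : Set T.Pos) (B : Dat T) (hA : T.QI (x.x (N + 1)) A)
    (hB : ∀ n, N + 2 ≤ n → T.C4 N D (x.x n) A B) (b : Bool) (σ : Strat (aux T N D hN))
    (h1 : ∀ n, n % 2 = par b → (σ.s ((mkB hN x A B hA hB).x n)).p = x.x (n + 1))
    (h2 : N % 2 = par b → (σ.s ((mkB hN x A B hA hB).x N)).a = A)
    (h3 : (N + 1) % 2 = par b → (σ.s ((mkB hN x A B hA hB).x (N + 1))).b = B) :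
    Cons b σ (mkB hN x A B hA hB) := by
  intro n hn
  set w := σ.s ((mkB hN x A B hA hB).x n) with hw
  have hs := σ.hs ((mkB hN x A B hA hB).x n)
  rw [← hw] at hs
  have hs1 : w.r = (mkB hN x A B hA hB).x n := hs.1
  have hp : w.p = x.x (n + 1) := h1 n hn
  have hl : T.len w.p = n + 1 := by rw [hp, x.hlen]
  refine (QPos.ext (T := T) (N := N) (D := D) ?_ ?_ ?_).symm
  · exact hp
  · show w.a = if n + 1 ≤ N then ∅ else A
    rcases lt_trichotomy n N with h | h | h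
    · rw [if_pos (by omega)]
      exact w.valid.c1 (by omega)
    · rw [if_neg (by omega)]
      subst h
      exact h2 hn
    · rw [if_neg (by omega)]
      refine (QPos.r_a (z := w) (by omega)).symm.trans ((congrArg QPos.a hs1).trans ?_)
      show (if n ≤ N then ∅ else A) = A
      rw [if_neg (by omega)]
  · show w.b = if n + 1 ≤ N + 1 then T.d0 else B
    rcases lt_trichotomy n (N + 1) with h | h | h
    · rw [if_pos (by omega)]
      exact w.valid.c2 (by omega)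
    · rw [if_neg (by omega)]
      subst h
      exact h3 hn
    · rw [if_neg (by omega)]
      refine (QPos.r_b (z := w) (by omega)).symm.trans ((congrArg QPos.b hs1).trans ?_)
      show (if n ≤ N + 1 then T.d0 else B) = B
      rw [if_neg (by omega)]

theorem mkB_val (x : Body T) (A : Set T.Pos) (B : Dat T) (hA : T.QI (x.x (N + 1)) A)
    (hB : ∀ n, N + 2 ≤ n → T.C4 N D (x.x n) A B) (σ : Strat (aux T N D hN)) (n : ℕ) :
    (σ.s ((mkB hN x A B hA hB).x n)).p =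
      val σ (x.x n) (if n ≤ N then ∅ else A) (if n ≤ N + 1 then T.d0 else B) :=
  (val_of _).symm

theorem mkB_rep (x : Body T) (A : Set T.Pos) (B : Dat T) (hA : T.QI (x.x (N + 1)) A)
    (hB : ∀ n, N + 2 ≤ n → T.C4 N D (x.x n) A B) (σ : Strat (aux T N D hN)) (n : ℕ) :
    ((σ.s ((mkB hN x A B hA hB).x n)).a, (σ.s ((mkB hN x A B hA hB).x n)).b) =
      rep σ (x.x n) (if n ≤ N then ∅ else A) (if n ≤ N + 1 then T.d0 else B) :=
  (rep_of _).symm

theorem val_mem {σ : Strat (aux T N D hN)} {p : T.Pos} {a S : Set T.Pos}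
    (h : T.Valid N D p a (Sum.inr S)) (hp : N + 2 ≤ T.len p) : val σ p a (Sum.inr S) ∈ S := by
  rw [val_of h]
  set w := σ.s ⟨p, a, Sum.inr S, h⟩ with hw
  have hs := σ.hs ⟨p, a, Sum.inr S, h⟩
  rw [← hw] at hs
  have hl : T.len w.p = T.len p + 1 := hs.2
  have hb : w.b = Sum.inr S :=
    (QPos.r_b (z := w) (by omega)).symm.trans (congrArg QPos.b hs.1)
  have h4 := w.valid.c4 (by omega)
  rw [hb] at h4
  exact h4.2

theorem valid_long {x : Body T} {a S : Set T.Pos} (hQ : T.QI (x.x (N + 1)) a)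
    (hS : T.QII N D a (x.x (N + 2)) S) {n : ℕ} (hn : N + 2 ≤ n) (hm : x.x n ∈ S) :
    T.Valid N D (x.x n) a (Sum.inr S) := by
  refine ⟨fun h => ?_, fun h => ?_, fun _ => ?_, fun _ => ⟨?_, hm⟩⟩
  · rw [x.hlen] at h; omega
  · rw [x.hlen] at h; omega
  · rw [x.pre (by omega)]; exact hQ
  · rw [x.pre hn]; exact hS

/-- forced moves when the datum is a position `u = x m` -/
theorem mkB_forced (x : Body T) (A : Set T.Pos) (m : ℕ) (hA : T.QI (x.x (N + 1)) A)
    (hB : ∀ n, N + 2 ≤ n → T.C4 N D (x.x n) A (Sum.inl (x.x m))) (σ : Strat (aux T N D hN))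
    (n : ℕ) (hn : N + 1 ≤ n) (hm : n < m)
    (h3 : n = N + 1 →
      (σ.s ((mkB hN x A (Sum.inl (x.x m)) hA hB).x n)).b = Sum.inl (x.x m)) :
    (σ.s ((mkB hN x A (Sum.inl (x.x m)) hA hB).x n)).p = x.x (n + 1) := by
  set y := mkB hN x A (Sum.inl (x.x m)) hA hB with hy
  set w := σ.s (y.x n) with hw
  have hs := σ.hs (y.x n)
  rw [← hw] at hs
  have hs1 : w.r = y.x n := hs.1
  have hl : T.len w.p = n + 1 := by
    have h := hs.2
    have h' : T.len (y.x n).p = n := x.hlen n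
    exact h.trans (by show T.len (y.x n).p + 1 = n + 1; rw [h'])
  have hb : w.b = Sum.inl (x.x m) := by
    rcases Nat.lt_or_ge (N + 1) n with h | h
    · refine (QPos.r_b (z := w) (by omega)).symm.trans ((congrArg QPos.b hs1).trans ?_)
      show (if n ≤ N + 1 then T.d0 else _) = _
      rw [if_neg (by omega)]
    · exact h3 (by omega)
  have h4 := w.valid.c4 (by omega)
  rw [hb] at h4
  have h5 := h4.2.2.2 (n + 1) (by omega) (by rw [x.hlen]; omega)
  rw [pre_self _ (by omega), x.pre (by omega)] at h5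
  exact h5

end

end GTree

end Pool.Agent.H86.Det
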