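import Pool.Agent.H86.Det.Closed2

/-!
# Unravelling closed sets: the covering
-/

namespace Pool.Agent.H86.Det

namespace GTree

section
variable {T : GTree} {N : ℕ} {D : Set T.Pos} {hN : N % 2 = 0}

/-! ## Player I -/

variable (N D) in
def RI (a₀ : Set T.Pos) (a : Set T.Pos) (u : T.Pos) : Prop :=
  a = a₀ ∧ u ∈ a₀ ∧ u ∈ D ∧ N + 2 ≤ T.len u

variable (N D) in
def SI (a₀ : Set T.Pos) (s' : T.Pos) : Set T.Pos :=
  {z | z ∈ a₀ ∧ N + 2 ≤ T.len z ∧ T.pre z (N + 2) = s' ∧
    ∀ j, N + 2 ≤ j → j ≤ T.len z → T.pre z j ∉ W false (UR (RI N D a₀))}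

open Classical in
noncomputable def stIs (σ : Strat (aux T N D hN)) (p : T.Pos) : T.Pos :=
  if T.len p ≤ N then val σ p ∅ T.d0
  else if T.len p ≤ N + 1 then (dflt T).s p
  else follow N false (N + 2) (RI N D (rep σ (T.pre p N) ∅ T.d0).1)
    (rep σ (T.pre p N) ∅ T.d0).1
    (Sum.inr (SI N D (rep σ (T.pre p N) ∅ T.d0).1 (T.pre p (N + 2)))) (val σ p) p

theorem stIs_succ (σ : Strat (aux T N D hN)) (p : T.Pos) : T.Succ p (stIs σ p) := by
  unfold stIs
  split_ifs
  · exact val_succ _ _ _ _
  · exact (dflt T).hs p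
  · exact follow_succ (val_succ σ p)

theorem stIs_loc {σ σ' : Strat (aux T N D hN)} {n : ℕ}
    (h : ∀ q, (aux T N D hN).len q < n → σ.s q = σ'.s q) {p : T.Pos} (hp : T.len p < n) :
    stIs σ p = stIs σ' p := by
  unfold stIs
  split_ifs with h1 h2
  · exact val_loc h hp _ _
  · rfl
  · rw [rep_loc h (p := T.pre p N) (by rw [pre_len p (by omega)]; omega)]
    congr 1
    funext a b
    exact val_loc h hp _ _

theorem SI_QII (a₀ : Set T.Pos) (hN : N % 2 = 0) (s s' : T.Pos) (hs : T.len s = N + 1)
    (hs' : T.Succ s s')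
    (ha : T.QI s a₀) (hW : s' ∉ W false (UR (RI N D a₀))) :
    T.QII N D a₀ s' (SI N D a₀ s') := by
  have hl : T.len s' = N + 2 := by rw [hs'.2, hs]
  have hs'a : s' ∈ a₀ := ha.opp s ha.mem (by omega) s' hs'
  refine ⟨⟨hs'a, by omega, pre_self _ (by omega), ?_⟩, fun q hq => hq.1, ?_, fun q hq => hq.2.1,
    ?_, ?_, ?_⟩
  · intro j h1 h2
    have : j = T.len s' := by omega
    rw [this, pre_self _ le_rfl]
    exact hW
  · intro q hq hqD
    have := hq.2.2.2 (T.len q) hq.2.1 le_rfl
    rw [pre_self _ le_rfl] at this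
    exact this (W0 ⟨a₀, rfl, hq.1, hqD, hq.2.1⟩)
  · intro q hq hl
    refine ⟨ha.down q hq.1 (by omega), by rw [T.len_r]; omega, ?_, ?_⟩
    · rw [pre_r q hl]; exact hq.2.2.1
    · intro j h1 h2
      rw [T.len_r] at h2
      rw [pre_r q (by omega)]
      exact hq.2.2.2 j h1 (by omega)
  · intro q hq hpar q' hq' hss
    have e1 := hss.2
    have e2 := hq.2.1
    refine ⟨hq', by omega, ?_, ?_⟩
    · rw [← pre_r q' (by omega), hss.1]
      exact hq.2.2.1
    · intro j h1 h2
      rcases Nat.lt_or_ge (T.len q) j with h | h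
      · have hj : j = T.len q' := by omega
        rw [hj, pre_self _ le_rfl]
        intro hcon
        have := hq.2.2.2 (T.len q) hq.2.1 le_rfl
        rw [pre_self _ le_rfl] at this
        exact this (W1 (by rw [hpar]; rfl) hss hcon)
      · rw [← pre_r q' (by omega), hss.1]
        exact hq.2.2.2 j h1 h
  · intro q hq hpar
    have h0 := hq.2.2.2 (T.len q) hq.2.1 le_rfl
    rw [pre_self _ le_rfl] at h0
    obtain ⟨q', hss, hq'⟩ : ∃ q', T.Succ q q' ∧ q' ∉ W false (UR (RI N D a₀)) := by
      by_contra hcon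
      push Not at hcon
      exact h0 (W2 hcon)
    have e1 := hss.2
    have e2 := hq.2.1
    refine ⟨q', hss, ha.opp q hq.1 hpar q' hss, by omega, ?_, ?_⟩
    · rw [← pre_r q' (by omega), hss.1]
      exact hq.2.2.1
    · intro j h1 h2
      rcases Nat.lt_or_ge (T.len q) j with h | h
      · have hj : j = T.len q' := by omega
        rw [hj, pre_self _ le_rfl]
        exact hq'
      · rw [← pre_r q' (by omega), hss.1]
        exact hq.2.2.2 j h1 h

theorem liftI (σ : Strat (aux T N D hN)) (x : Body T)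
    (hx : ∀ n, n % 2 = 0 → x.x (n + 1) = stIs σ (x.x n)) :
    ∃ y : Body (aux T N D hN), Cons false σ y ∧ (auxHom T N D hN).body y = x := by
  classical
  have hv0 : T.Valid N D (x.x N) ∅ T.d0 := valid_short (by rw [x.hlen])
  set w := σ.s ⟨x.x N, ∅, T.d0, hv0⟩ with hw
  set a₀ : Set T.Pos := QPos.a w with ha₀
  have hrep : (rep σ (x.x N) ∅ T.d0).1 = a₀ := by rw [rep_of hv0]
  have hwp : QPos.p w = x.x (N + 1) := by
    rw [hx N hN, stIs, if_pos (by rw [x.hlen]), val_of hv0]
  have hQ : T.QI (x.x (N + 1)) a₀ := by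
    have := w.valid.c3 (by rw [hwp, x.hlen])
    rwa [hwp, pre_self _ (by rw [x.hlen])] at this
  have hfol : ∀ n, N + 2 ≤ n → n % 2 = par false → x.x (n + 1) =
      follow N false (N + 2) (RI N D a₀) a₀ (Sum.inr (SI N D a₀ (x.x (N + 2))))
        (val σ (x.x n)) (x.x n) := by
    intro n hn hp
    rw [hx n hp, stIs, if_neg (by rw [x.hlen]; omega), if_neg (by rw [x.hlen]; omega),
      x.pre (by omega), x.pre hn, hrep]
  have hU : ∀ u ∈ UR (RI N D a₀), N + 2 ≤ T.len u := by
    rintro u ⟨a, _, _, _, h⟩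
    exact h
  rcases dich hU x (fun _ => a₀) (fun _ => Sum.inr (SI N D a₀ (x.x (N + 2))))
    (fun n => val σ (x.x n)) hfol with ⟨m, hm1, hm2, hm3⟩ | ⟨hW, hnU⟩
  · -- the target is met
    have hm2' := hm2
    obtain ⟨_, _, hu1, hu2, hu3⟩ := hm2'
    have hpick : pick (RI N D a₀) (x.x m) = a₀ := (pick_spec hm2).1
    have hB : ∀ n, N + 2 ≤ n → T.C4 N D (x.x n) a₀ (Sum.inl (x.x m)) := by
      intro n hn
      refine ⟨hu1, hu2, hu3, ?_⟩
      intro j h1 h2
      rw [x.hlen] at h1 h2
      rw [x.pre h1, x.pre h2]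
    refine ⟨mkB hN x a₀ (Sum.inl (x.x m)) hQ hB, ?_, rfl⟩
    apply mkB_cons
    · intro n hn
      rcases Nat.lt_or_ge N n with h | h
      · have h' : N + 2 ≤ n := by
          have : n % 2 = 0 := hn
          omega
        rcases Nat.lt_or_ge n m with h3 | h3
        · exact mkB_forced x a₀ m hQ hB σ n (by omega) h3 (fun e => by omega)
        · rw [mkB_val, if_neg (by omega), if_neg (by omega), hfol n h' hn,
            follow_1 x hm1 h3 hm2 hm3, hpick]
      · rw [mkB_val, if_pos h, if_pos (by omega), hx n hn, stIs,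
          if_pos (by rw [x.hlen]; exact h)]
    · intro _
      have := mkB_rep x a₀ (Sum.inl (x.x m)) hQ hB σ N
      rw [if_pos le_rfl, if_pos (by omega)] at this
      exact (congrArg Prod.fst this).trans hrep
    · intro h
      exfalso
      have : (N + 1) % 2 = 0 := h
      omega
  · -- the target is avoided
    have hS := SI_QII a₀ hN (x.x (N + 1)) (x.x (N + 2)) (x.hlen _) (x.succ _) hQ (hW _ le_rfl)
    set S := SI N D a₀ (x.x (N + 2)) with hSdef
    have hval : ∀ n, N + 2 ≤ n → x.x n ∈ S := by
      intro n hn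
      induction n, hn using Nat.le_induction with
      | base => exact hS.mem
      | succ n hn ih =>
        by_cases hpar : n % 2 = 0
        · rw [hfol n hn hpar, follow_3 x (fun m h _ => hnU m h) (fun j h _ => hW j h)]
          exact val_mem (valid_long hQ hS hn ih) (by rw [x.hlen]; exact hn)
        · refine ⟨hQ.opp _ ih.1 (by rw [x.hlen]; omega) _ (x.succ n), by rw [x.hlen]; omega,
            x.pre (by omega), ?_⟩
          intro j h1 h2
          rw [x.hlen] at h2
          rw [x.pre h2]
          exact hW j h1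
    have hB : ∀ n, N + 2 ≤ n → T.C4 N D (x.x n) a₀ (Sum.inr S) := by
      intro n hn
      exact (valid_long hQ hS hn (hval n hn)).c4 (by rw [x.hlen]; exact hn)
    refine ⟨mkB hN x a₀ (Sum.inr S) hQ hB, ?_, rfl⟩
    apply mkB_cons
    · intro n hn
      rcases Nat.lt_or_ge N n with h | h
      · have h' : N + 2 ≤ n := by
          have : n % 2 = 0 := hn
          omega
        rw [mkB_val, if_neg (by omega), if_neg (by omega), hfol n h' hn,
          follow_3 x (fun m h _ => hnU m h) (fun j h _ => hW j h)]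
      · rw [mkB_val, if_pos h, if_pos (by omega), hx n hn, stIs,
          if_pos (by rw [x.hlen]; exact h)]
    · intro _
      have := mkB_rep x a₀ (Sum.inr S) hQ hB σ N
      rw [if_pos le_rfl, if_pos (by omega)] at this
      exact (congrArg Prod.fst this).trans hrep
    · intro h
      exfalso
      have : (N + 1) % 2 = 0 := h
      omega

/-! ## Player II -/

def RII (σ : Strat (aux T N D hN)) (s : T.Pos) (a : Set T.Pos) (u : T.Pos) : Prop :=
  T.Valid N D s a T.d0 ∧ (rep σ s a T.d0).2 = Sum.inl u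

variable (N) in
def AII (R : Set T.Pos → T.Pos → Prop) (s : T.Pos) : Set T.Pos :=
  {z | N + 1 ≤ T.len z ∧ T.pre z (N + 1) = s ∧
    ∀ j, N + 1 ≤ j → j ≤ T.len z → T.pre z j ∉ W true (UR R)}

open Classical in
noncomputable def stIIs (σ : Strat (aux T N D hN)) (p : T.Pos) : T.Pos :=
  if T.len p ≤ N then val σ p ∅ T.d0
  else follow N true (N + 1) (RII σ (T.pre p (N + 1)))
    (AII N (RII σ (T.pre p (N + 1))) (T.pre p (N + 1)))
    (if T.len p ≤ N + 1 then T.d0 else
      (rep σ (T.pre p (N + 1)) (AII N (RII σ (T.pre p (N + 1))) (T.pre p (N + 1))) T.d0).2)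
    (val σ p) p

theorem stIIs_succ (σ : Strat (aux T N D hN)) (p : T.Pos) : T.Succ p (stIIs σ p) := by
  unfold stIIs
  split_ifs
  · exact val_succ _ _ _ _
  · exact follow_succ (val_succ σ p)
  · exact follow_succ (val_succ σ p)

theorem stIIs_loc {σ σ' : Strat (aux T N D hN)} {n : ℕ}
    (h : ∀ q, (aux T N D hN).len q < n → σ.s q = σ'.s q) {p : T.Pos} (hp : T.len p < n) :
    stIIs σ p = stIIs σ' p := by
  by_cases h1 : T.len p ≤ N
  · unfold stIIs
    rw [if_pos h1, if_pos h1]
    exact val_loc h hp _ _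
  · have hs : T.len (T.pre p (N + 1)) < n := by rw [pre_len p (by omega)]; omega
    have hR : RII σ (T.pre p (N + 1)) = RII σ' (T.pre p (N + 1)) := by
      funext a u
      unfold RII
      rw [rep_loc h hs]
    have hv : val σ p = val σ' p := by
      funext a b
      exact val_loc h hp _ _
    unfold stIIs
    rw [if_neg h1, if_neg h1, hR, hv, rep_loc h hs]

theorem AII_QI (R : Set T.Pos → T.Pos → Prop) (hN : N % 2 = 0) (s : T.Pos)
    (hs : T.len s = N + 1) (hW : s ∉ W true (UR R)) : T.QI s (AII N R s) := by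
  refine ⟨⟨by omega, pre_self _ (by omega), ?_⟩, ?_, ?_, ?_, ?_⟩
  · intro j h1 h2
    have : j = T.len s := by omega
    rw [this, pre_self _ le_rfl]
    exact hW
  · intro q hq
    rw [hs]
    exact ⟨hq.1, hq.2.1⟩
  · intro q hq hl
    refine ⟨by rw [T.len_r]; omega, ?_, ?_⟩
    · rw [pre_r q (by omega)]; exact hq.2.1
    · intro j h1 h2
      rw [T.len_r] at h2
      rw [pre_r q (by omega)]
      exact hq.2.2 j h1 (by omega)
  · intro q hq hpar q' hss
    have e1 := hss.2
    have e2 := hq.1
    refine ⟨by omega, ?_, ?_⟩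
    · rw [← pre_r q' (by omega), hss.1]
      exact hq.2.1
    · intro j h1 h2
      rcases Nat.lt_or_ge (T.len q) j with h | h
      · have hj : j = T.len q' := by omega
        rw [hj, pre_self _ le_rfl]
        intro hcon
        have := hq.2.2 (T.len q) hq.1 le_rfl
        rw [pre_self _ le_rfl] at this
        exact this (W1 (by rw [hpar]; rfl) hss hcon)
      · rw [← pre_r q' (by omega), hss.1]
        exact hq.2.2 j h1 h
  · intro q hq hpar
    have h0 := hq.2.2 (T.len q) hq.1 le_rfl
    rw [pre_self _ le_rfl] at h0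
    obtain ⟨q', hss, hq'⟩ : ∃ q', T.Succ q q' ∧ q' ∉ W true (UR R) := by
      by_contra hcon
      push Not at hcon
      exact h0 (W2 hcon)
    have e1 := hss.2
    have e2 := hq.1
    refine ⟨q', hss, by omega, ?_, ?_⟩
    · rw [← pre_r q' (by omega), hss.1]
      exact hq.2.1
    · intro j h1 h2
      rcases Nat.lt_or_ge (T.len q) j with h | h
      · have hj : j = T.len q' := by omega
        rw [hj, pre_self _ le_rfl]
        exact hq'
      · rw [← pre_r q' (by omega), hss.1]
        exact hq.2.2 j h1 h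

theorem QI_of_valid {s : T.Pos} {a : Set T.Pos} {b : Dat T} (hs : T.len s = N + 1)
    (h : T.Valid N D s a b) : T.QI s a := by
  have := h.c3 (by omega)
  rwa [pre_self s (by omega)] at this

theorem valid_of_QI {s : T.Pos} {a : Set T.Pos} (hs : T.len s = N + 1)
    (h : T.QI s a) : T.Valid N D s a T.d0 := by
  refine ⟨fun h' => by omega, fun _ => rfl, fun _ => ?_, fun h' => by omega⟩
  rwa [pre_self s (by omega)]

/-- the answer of player II at the crucial level -/
theorem rep_C4 (σ : Strat (aux T N D hN)) {s : T.Pos} {a : Set T.Pos} (hs : T.len s = N + 1)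
    (h : T.Valid N D s a T.d0) : T.C4 N D (val σ s a T.d0) a (rep σ s a T.d0).2 ∧
      (rep σ s a T.d0).1 = a := by
  rw [val_of h, rep_of h]
  set w := σ.s ⟨s, a, T.d0, h⟩ with hw
  have hss := σ.hs ⟨s, a, T.d0, h⟩
  rw [← hw] at hss
  have hl : T.len w.p = T.len s + 1 := hss.2
  have ha : w.a = a := (QPos.r_a (z := w) (by omega)).symm.trans (congrArg QPos.a hss.1)
  refine ⟨?_, ha⟩
  have := w.valid.c4 (by omega)
  rw [ha] at this
  exact this

theorem liftII (σ : Strat (aux T N D hN)) (x : Body T)
    (hx : ∀ n, n % 2 = 1 → x.x (n + 1) = stIIs σ (x.x n)) :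
    ∃ y : Body (aux T N D hN), Cons true σ y ∧ (auxHom T N D hN).body y = x := by
  classical
  set s := x.x (N + 1) with hs
  have hls : T.len s = N + 1 := x.hlen _
  set R := RII σ s with hR
  set a₁ := AII N R s with ha₁
  have hfol : ∀ n, N + 1 ≤ n → n % 2 = par true → x.x (n + 1) =
      follow N true (N + 1) R a₁ (if n ≤ N + 1 then T.d0 else (rep σ s a₁ T.d0).2)
        (val σ (x.x n)) (x.x n) := by
    intro n hn hp
    rw [hx n hp, stIIs, if_neg (by rw [x.hlen]; omega), x.pre (by omega), x.hlen]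
  have hU : ∀ u ∈ UR R, N + 2 ≤ T.len u := by
    rintro u ⟨a, h1, h2⟩
    have := (rep_C4 σ hls h1).1
    rw [h2] at this
    exact this.2.2.1
  rcases dich hU x (fun _ => a₁) (fun n => if n ≤ N + 1 then T.d0 else (rep σ s a₁ T.d0).2)
    (fun n => val σ (x.x n)) hfol with ⟨m, hm1, hm2, hm3⟩ | ⟨hW, hnU⟩
  · -- the target is met
    have hpick := pick_spec hm2
    set A := pick R (x.x m) with hA
    obtain ⟨hv, hu⟩ := hpick
    have hC := (rep_C4 σ hls hv).1
    rw [hu] at hC
    have hQ : T.QI s A := QI_of_valid hls hv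
    have hB : ∀ n, N + 2 ≤ n → T.C4 N D (x.x n) A (Sum.inl (x.x m)) := by
      intro n hn
      refine ⟨hC.1, hC.2.1, hC.2.2.1, ?_⟩
      intro j h1 h2
      rw [x.hlen] at h1 h2
      rw [x.pre h1, x.pre h2]
    have hb3 : (σ.s ((mkB hN x A (Sum.inl (x.x m)) hQ hB).x (N + 1))).b = Sum.inl (x.x m) := by
      have := mkB_rep x A (Sum.inl (x.x m)) hQ hB σ (N + 1)
      rw [if_neg (by omega), if_pos (by omega)] at this
      exact (congrArg Prod.snd this).trans hu
    refine ⟨mkB hN x A (Sum.inl (x.x m)) hQ hB, ?_, rfl⟩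
    apply mkB_cons
    · intro n hn
      rcases Nat.lt_or_ge N n with h | h
      · rcases Nat.lt_or_ge n m with h3 | h3
        · exact mkB_forced x A m hQ hB σ n (by omega) h3 (fun e => by subst e; exact hb3)
        · rw [mkB_val, if_neg (by omega), if_neg (by omega), hfol n h hn,
            follow_1 x hm1 h3 hm2 hm3]
      · rw [mkB_val, if_pos h, if_pos (by omega), hx n hn, stIIs,
          if_pos (by rw [x.hlen]; exact h)]
    · intro h
      exfalso
      have : N % 2 = 1 := h
      omega
    · intro _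
      exact hb3
  · -- the target is avoided
    have hQ : T.QI s a₁ := AII_QI R hN s hls (hW _ le_rfl)
    have hv := valid_of_QI (D := D) hls hQ
    have hC := (rep_C4 σ hls hv).1
    have hx2 : x.x (N + 2) = val σ s a₁ T.d0 := by
      rw [hfol (N + 1) le_rfl (by show (N + 1) % 2 = 1; omega),
        follow_3 x (fun m h _ => hnU m h) (fun j h _ => hW j h), if_pos le_rfl]
    rcases hrep : (rep σ s a₁ T.d0).2 with u | S
    · exfalso
      rw [hrep] at hC
      have huU : u ∈ UR R := ⟨a₁, hv, hrep⟩
      have := hC.1.2.2 (T.len u) (by have := hC.2.2.1; omega) le_rfl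
      rw [pre_self _ le_rfl] at this
      exact this (W0 huU)
    · rw [hrep, ← hx2] at hC
      have hS : T.QII N D a₁ (x.x (N + 2)) S := by
        have := hC.1
        rwa [x.pre le_rfl] at this
      have hval : ∀ n, N + 2 ≤ n → x.x n ∈ S := by
        intro n hn
        induction n, hn using Nat.le_induction with
        | base => exact hC.2
        | succ n hn ih =>
          by_cases hpar : n % 2 = 1
          · rw [hfol n (by omega) hpar, follow_3 x (fun m h _ => hnU m h) (fun j h _ => hW j h),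
              if_neg (by omega), hrep]
            exact val_mem (valid_long hQ hS hn ih) (by rw [x.hlen]; exact hn)
          · refine hS.opp _ ih (by rw [x.hlen]; omega) _ ⟨by rw [x.hlen]; omega,
              x.pre (by omega), ?_⟩ (x.succ n)
            intro j h1 h2
            rw [x.hlen] at h2
            rw [x.pre h2]
            exact hW j h1
      have hB : ∀ n, N + 2 ≤ n → T.C4 N D (x.x n) a₁ (Sum.inr S) := by
        intro n hn
        exact (valid_long hQ hS hn (hval n hn)).c4 (by rw [x.hlen]; exact hn)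
      refine ⟨mkB hN x a₁ (Sum.inr S) hQ hB, ?_, rfl⟩
      apply mkB_cons
      · intro n hn
        rcases Nat.lt_or_ge N n with h | h
        · rcases Nat.lt_or_ge (N + 1) n with h' | h'
          · rw [mkB_val, if_neg (by omega), if_neg (by omega), hfol n (by omega) hn,
              follow_3 x (fun m h _ => hnU m h) (fun j h _ => hW j h), if_neg (by omega), hrep]
          · have : n = N + 1 := by omega
            subst this
            rw [mkB_val, if_neg (by omega), if_pos le_rfl]
            exact hx2.symm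
        · rw [mkB_val, if_pos h, if_pos (by omega), hx n hn, stIIs,
            if_pos (by rw [x.hlen]; exact h)]
      · intro h
        exfalso
        have : N % 2 = 1 := h
        omega
      · intro _
        have := mkB_rep x a₁ (Sum.inr S) hQ hB σ (N + 1)
        rw [if_neg (by omega), if_pos (by omega)] at this
        exact (congrArg Prod.snd this).trans hrep

end

/-- the covering by the auxiliary game -/
noncomputable def auxCov (T : GTree) (N : ℕ) (D : Set T.Pos) (hN : N % 2 = 0) : Cov N (aux T N D hN) T where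
  toHom := auxHom T N D hN
  inj := fun q q' hq h => by
    have h' : QPos.p q = QPos.p q' := h
    have hq2 : T.len (QPos.p q) ≤ N := hq
    have hq1 : T.len (QPos.p q') ≤ N := by rw [← h']; exact hq2
    apply QPos.ext
    · exact h'
    · rw [q.valid.c1 hq2, q'.valid.c1 hq1]
    · rw [q.valid.c2 (by omega), q'.valid.c2 (by omega)]
  surj := fun p hp => ⟨⟨p, ∅, T.d0, valid_short hp⟩, rfl⟩
  φ := fun b σ => ⟨fun p => if b then stIIs σ p else stIs σ p, fun p => by
    cases b
    · exact stIs_succ σ p
    · exact stIIs_succ σ p⟩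
  loc := fun b n σ σ' h p hp => by
    cases b
    · exact stIs_loc h hp
    · exact stIIs_loc h hp
  agree := fun b σ q hq => by
    have hq' : T.len (QPos.p q) < N := hq
    have hqe : q = ⟨q.p, ∅, T.d0, valid_short hq'.le⟩ := by
      apply QPos.ext
      · rfl
      · exact q.valid.c1 hq'.le
      · exact q.valid.c2 (by omega)
    cases b
    · show stIs σ q.p = (σ.s q).p
      rw [stIs, if_pos hq'.le, val_of (valid_short hq'.le), ← hqe]
    · show stIIs σ q.p = (σ.s q).p
      rw [stIIs, if_pos hq'.le, val_of (valid_short hq'.le), ← hqe]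
  lift := fun b σ x hx => by
    cases b
    · exact liftI σ x hx
    · exact liftII σ x hx

end GTree

end Pool.Agent.H86.Det
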