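import Pool.Agent.H86.Det.Basic

/-!
# Open games on a game tree
-/

namespace Pool.Agent.H86.Det

namespace GTree
variable {T : GTree}

/-- following `σ` from `q` on, the play meets `U` -/
def Wins (b : Bool) (U : Set T.Pos) (q : T.Pos) (σ : Strat T) : Prop :=
  ∀ x : Body T, x.x (T.len q) = q →
    (∀ n, T.len q ≤ n → n % 2 = par b → x.x (n + 1) = σ.s (x.x n)) →
    ∃ n, T.len q ≤ n ∧ x.x n ∈ U

/-- winning region of player `b` for the open set given by `U` -/
def W (b : Bool) (U : Set T.Pos) : Set T.Pos := {q | ∃ σ, Wins b U q σ}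

theorem W0 {b : Bool} {U : Set T.Pos} {q : T.Pos} (h : q ∈ U) : q ∈ W b U :=
  ⟨dflt T, fun x hx _ => ⟨T.len q, le_rfl, by rw [hx]; exact h⟩⟩

theorem W1 {b : Bool} {U : Set T.Pos} {q q' : T.Pos} (hq : T.len q % 2 = par b)
    (hs : T.Succ q q') (h : q' ∈ W b U) : q ∈ W b U := by
  classical
  obtain ⟨σ', h'⟩ := h
  refine ⟨⟨fun z => if z = q then q' else σ'.s z, fun z => ?_⟩, ?_⟩
  · by_cases hz : z = q
    · simp only [hz, if_true]; exact hs
    · simp only [hz, if_false]; exact σ'.hs z
  · intro x hx hc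
    have h1 : x.x (T.len q + 1) = q' := by
      rw [hc _ le_rfl hq, hx]
      simp
    obtain ⟨n, hn, hU⟩ := h' x (by rw [hs.2]; exact h1) (fun n hn hp => by
      have hn' : T.len q + 1 ≤ n := by rw [← hs.2]; exact hn
      rw [hc n (by omega) hp]
      have : x.x n ≠ q := fun e => by
        have := x.hlen n
        rw [e] at this
        omega
      simp [this])
    exact ⟨n, by have := hs.2; omega, hU⟩

theorem W2 {b : Bool} {U : Set T.Pos} {q : T.Pos}
    (h : ∀ q', T.Succ q q' → q' ∈ W b U) : q ∈ W b U := by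
  classical
  have h' : ∀ q', ∃ σ, T.Succ q q' → Wins b U q' σ := fun q' => by
    by_cases hs : T.Succ q q'
    · obtain ⟨σ, hσ⟩ := h q' hs
      exact ⟨σ, fun _ => hσ⟩
    · exact ⟨dflt T, fun hh => absurd hh hs⟩
  choose F hF using h'
  refine ⟨⟨fun z => (F (T.pre z (T.len q + 1))).s z, fun z => (F _).hs z⟩, ?_⟩
  intro x hx hc
  have hs : T.Succ q (x.x (T.len q + 1)) := by
    have := x.succ (T.len q)
    rwa [hx] at this
  obtain ⟨n, hn, hU⟩ := hF _ hs x (by rw [x.hlen]) (fun n hn hp => by
    rw [x.hlen] at hn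
    rw [hc n (by omega) hp]
    show (F (T.pre (x.x n) (T.len q + 1))).s (x.x n) = _
    rw [x.pre hn])
  refine ⟨n, ?_, hU⟩
  rw [x.hlen] at hn
  omega

/-- a strategy winning from `q`, if there is one -/
noncomputable def wst (b : Bool) (U : Set T.Pos) (q : T.Pos) : Strat T :=
  open Classical in if h : q ∈ W b U then h.choose else dflt T

theorem wst_spec {b : Bool} {U : Set T.Pos} {q : T.Pos} (h : q ∈ W b U) :
    Wins b U q (wst b U q) := by
  rw [wst, dif_pos h]
  exact h.choose_spec

/-- determinacy of open games -/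
theorem open_det (T : GTree) (hroot : ∀ p q : T.Pos, T.len p = 0 → T.len q = 0 → p = q)
    (X : Set (Body T)) (hX : IsO X) :
    (∃ σ : Strat T, ∀ x, Cons false σ x → x ∈ X) ∨
    (∃ τ : Strat T, ∀ x, Cons true τ x → x ∉ X) := by
  classical
  let U : Set T.Pos := {q | ∀ x : Body T, x.x (T.len q) = q → x ∈ X}
  by_cases hr : ∃ p, T.len p = 0 ∧ p ∈ W false U
  · left
    obtain ⟨p, hp, σ, hσ⟩ := hr
    refine ⟨σ, fun x hx => ?_⟩
    obtain ⟨n, _, hn⟩ := hσ x (by rw [hp]; exact hroot _ _ (x.hlen 0) hp) (fun n _ h => hx n h)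
    exact hn x (by rw [x.hlen])
  · right
    refine ⟨⟨fun z => if h : ∃ z', T.Succ z z' ∧ z' ∉ W false U then h.choose
      else (dflt T).s z, fun z => ?_⟩, ?_⟩
    · by_cases h : ∃ z', T.Succ z z' ∧ z' ∉ W false U
      · simp only [h, dite_true]; exact h.choose_spec.1
      · simp only [h, dite_false]; exact (dflt T).hs z
    · intro x hx hxX
      have key : ∀ n, x.x n ∉ W false U := by
        intro n
        induction n with
        | zero => exact fun h => hr ⟨_, x.hlen 0, h⟩
        | succ n ih =>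
          by_cases hn : n % 2 = 0
          · exact fun h => ih (W1 (by rw [x.hlen]; exact hn) (x.succ n) h)
          · have hex : ∃ z', T.Succ (x.x n) z' ∧ z' ∉ W false U := by
              by_contra hcon
              push Not at hcon
              exact ih (W2 hcon)
            rw [hx n (by simp [par]; omega)]
            simp only [hex, dite_true]
            exact hex.choose_spec.2
      obtain ⟨n, hn⟩ := hX x hxX
      exact key n (W0 (fun y hy => hn y (by rwa [x.hlen] at hy)))

end GTree

end Pool.Agent.H86.Det
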